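import Pool.Agent.H385R5.HE10B

/-!
# The sum of the norms of the divisors of a Gaussian integer

Owner helper856 (Selberg's density theorem for elliptic curves over ray class fields).
-/

set_option autoImplicit false

namespace Pool.Agent.A856.SE
open H385 (ZI RQ phiQ nrm)
open H385.H10

lemma sg_unit_dvd {d : ZI} (x : ZI) (hx : IsUnit (Ideal.Quotient.mk (Ideal.span {d}) x)) :
    IsCoprime x d := by
  obtain ⟨y, hy⟩ := hx.exists_right_inv
  obtain ⟨b, rfl⟩ := Ideal.Quotient.mk_surjective y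
  rw [← map_mul, ← map_one (Ideal.Quotient.mk (Ideal.span {d})), Ideal.Quotient.eq,
    Ideal.mem_span_singleton] at hy
  obtain ⟨w, hw⟩ := hy
  exact ⟨b, -w, by linear_combination hw⟩

/-- (1) -/
theorem sg_one {q d : ZI} (hq : q ≠ 0) (hd : d ∣ q) : phiQ q * nrm d ≤ nrm q * phiQ d := by
  classical
  have hd0 : d ≠ 0 := by
    rintro rfl
    exact hq (zero_dvd_iff.1 hd)
  have h1 := H385.he1_finite hq
  have h2 := H385.he1_finite hd0
  have hle : Ideal.span {q} ≤ Ideal.span {d} := by
    rw [Ideal.span_singleton_le_span_singleton]; exact hd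
  obtain ⟨π, hπ⟩ : ∃ π : RQ q →+* RQ d, Function.Surjective π :=
    ⟨Ideal.Quotient.factor hle, Ideal.Quotient.factor_surjective hle⟩
  obtain ⟨s, hs⟩ : ∃ s : RQ d → RQ q, ∀ y, π (s y) = y := ⟨fun y => (hπ y).choose, fun y => (hπ y).choose_spec⟩
  let g : (RQ q)ˣ × RQ d → (RQ d)ˣ × RQ q := fun p =>
    (Units.map (π : RQ q →* RQ d) p.1, (p.1 : RQ q) - s (π (p.1 : RQ q)) + s p.2)
  have hg : Function.Injective g := by
    rintro ⟨u, y⟩ ⟨u', y'⟩ h
    have e1 : Units.map (π : RQ q →* RQ d) u = Units.map (π : RQ q →* RQ d) u' :=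
      congrArg Prod.fst h
    have e2 : (u : RQ q) - s (π (u : RQ q)) + s y = (u' : RQ q) - s (π (u' : RQ q)) + s y' :=
      congrArg Prod.snd h
    have e3 : π (u : RQ q) = π (u' : RQ q) := by
      have := congrArg (fun v : (RQ d)ˣ => (v : RQ d)) e1
      simpa using this
    have e4 : y = y' := by
      have := congrArg π e2
      simpa [hs] using this
    subst e4
    rw [e3] at e2
    have e5 : (u : RQ q) = (u' : RQ q) := by
      have := add_right_cancel e2
      exact sub_left_injective this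
    rw [Units.ext e5]
  have h3 := Nat.card_le_card_of_injective g hg
  rw [Nat.card_prod, Nat.card_prod, card_RQ, card_RQ] at h3
  unfold phiQ
  rw [mul_comm (nrm q)]
  exact h3

/-- (2) -/
theorem sg_two {q : ZI} (hq : q ≠ 0) : ∑ d ∈ Dv q, phiQ d ≤ 4 * nrm q := by
  classical
  have hfq := H385.he1_finite hq
  have hft : Fintype (RQ q) := Fintype.ofFinite _
  have hex : ∀ d : ZI, ∃ e : ZI, d ∈ Dv q → q = d * e := by
    intro d
    by_cases h : d ∈ Dv q
    · obtain ⟨e, he⟩ := (mem_Dv hq d).1 h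
      exact ⟨e, fun _ => he⟩
    · exact ⟨0, fun h' => absurd h' h⟩
  choose e he using hex
  have hd0 : ∀ d ∈ Dv q, d ≠ 0 := by
    intro d hd h
    apply hq
    rw [he d hd, h, zero_mul]
  have he0 : ∀ d ∈ Dv q, e d ≠ 0 := by
    intro d hd h
    apply hq
    rw [he d hd, h, mul_zero]
  -- the sets
  let S : ZI → Finset (RQ q) := fun d => Finset.univ.filter (fun x => ∃ u : ZI, IsCoprime u d ∧
    x = Ideal.Quotient.mk (Ideal.span {q}) (e d * u))
  have hcard : ∀ d ∈ Dv q, phiQ d ≤ (S d).card := by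
    intro d hd
    have hfd := H385.he1_finite (hd0 d hd)
    let f : (RQ d)ˣ → S d := fun u => ⟨Ideal.Quotient.mk (Ideal.span {q})
      (e d * (Quotient.out (u : RQ d) : ZI)), by
        rw [Finset.mem_filter]
        refine ⟨Finset.mem_univ _, _, ?_, rfl⟩
        apply sg_unit_dvd
        have : Ideal.Quotient.mk (Ideal.span {d}) (Quotient.out (u : RQ d) : ZI) = (u : RQ d) :=
          Ideal.Quotient.mk_out _
        rw [this]
        exact u.isUnit⟩
    have hf : Function.Injective f := by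
      intro u u' h
      have h1 : Ideal.Quotient.mk (Ideal.span {q}) (e d * (Quotient.out (u : RQ d) : ZI)) =
          Ideal.Quotient.mk (Ideal.span {q}) (e d * (Quotient.out (u' : RQ d) : ZI)) :=
        congrArg Subtype.val h
      rw [Ideal.Quotient.eq, Ideal.mem_span_singleton] at h1
      obtain ⟨w, hw⟩ := h1
      have h2 : (Quotient.out (u : RQ d) : ZI) - (Quotient.out (u' : RQ d) : ZI) = d * w := by
        apply mul_left_cancel₀ (he0 d hd)
        have := he d hd
        linear_combination hw + w * this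
      have h3 : Ideal.Quotient.mk (Ideal.span {d}) (Quotient.out (u : RQ d) : ZI) =
          Ideal.Quotient.mk (Ideal.span {d}) (Quotient.out (u' : RQ d) : ZI) := by
        rw [Ideal.Quotient.eq, Ideal.mem_span_singleton]
        exact ⟨w, h2⟩
      rw [Ideal.Quotient.mk_out, Ideal.Quotient.mk_out] at h3
      exact Units.ext h3
    have := Nat.card_le_card_of_injective f hf
    rw [Nat.card_eq_fintype_card (α := S d), Fintype.card_coe] at this
    exact this
  have hdvd : ∀ d ∈ Dv q, ∀ d' ∈ Dv q, ∀ x, x ∈ S d → x ∈ S d' → d' ∣ d := by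
    intro d hd d' hd' x hx hx'
    rw [Finset.mem_filter] at hx hx'
    obtain ⟨-, u, hu, h1⟩ := hx
    obtain ⟨-, u', hu', h2⟩ := hx'
    rw [h1, Ideal.Quotient.eq, Ideal.mem_span_singleton] at h2
    obtain ⟨w, hw⟩ := h2
    have q1 := he d hd
    have q2 := he d' hd'
    -- e d * u - e d' * u' = q * w ; multiply by d
    have h3 : e d' * (u' * d) = e d' * (d' * (u - w * d)) := by
      linear_combination (-d) * hw - u * q1 + (u - w * d) * q2
    have h4 := mul_left_cancel₀ (he0 d' hd') h3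
    have h5 : d' ∣ u' * d := ⟨_, h4⟩
    exact hu'.symm.dvd_of_dvd_mul_left h5
  have hfib : ∀ x : RQ q, ((Dv q).filter (fun d => x ∈ S d)).card ≤ 4 := by
    intro x
    rcases ((Dv q).filter (fun d => x ∈ S d)).eq_empty_or_nonempty with hE | ⟨d₀, hd₀⟩
    · rw [hE]; simp
    rw [Finset.mem_filter] at hd₀
    have hsub : (Dv q).filter (fun d => x ∈ S d) ⊆
        ({d₀, d₀ * ⟨0, 1⟩, -d₀, d₀ * ⟨0, -1⟩} : Finset ZI) := by
      intro d hd
      rw [Finset.mem_filter] at hd
      have h1 := hdvd d hd.1 d₀ hd₀.1 x hd.2 hd₀.2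
      have h2 := hdvd d₀ hd₀.1 d hd.1 x hd₀.2 hd.2
      obtain ⟨v, hv⟩ := h1
      obtain ⟨w, hw⟩ := h2
      have h3 : v * w = 1 := by
        apply mul_left_cancel₀ (hd0 d₀ hd₀.1)
        rw [mul_one, ← mul_assoc, ← hv, ← hw]
      have hn : v.norm * w.norm = 1 := by
        rw [← Zsqrtd.norm_mul, h3, Zsqrtd.norm_one]
      have hv1 : v.norm = 1 := by
        have a1 := GaussianInt.norm_nonneg v
        exact Int.eq_one_of_mul_eq_one_right a1 hn
      rw [Zsqrtd.norm_def] at hv1
      have hv2 : v.re * v.re + v.im * v.im = 1 := by linarith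
      have b1 : v.re ≤ 1 := by nlinarith
      have b2 : -1 ≤ v.re := by nlinarith
      have b3 : v.im ≤ 1 := by nlinarith
      have b4 : -1 ≤ v.im := by nlinarith
      have hc : (v.re = 1 ∧ v.im = 0) ∨ (v.re = 0 ∧ v.im = 1) ∨ (v.re = -1 ∧ v.im = 0) ∨
          (v.re = 0 ∧ v.im = -1) := by
        generalize v.re = a at *
        generalize v.im = b at *
        interval_cases a <;> interval_cases b <;> omega
      simp only [Finset.mem_insert, Finset.mem_singleton]
      rw [hv]
      rcases hc with ⟨c1, c2⟩ | ⟨c1, c2⟩ | ⟨c1, c2⟩ | ⟨c1, c2⟩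
      · left
        ext <;> simp [c1, c2]
      · right; left
        ext <;> simp [c1, c2]
      · right; right; left
        ext <;> simp [c1, c2]
      · right; right; right
        ext <;> simp [c1, c2]
    exact (Finset.card_le_card hsub).trans Finset.card_le_four
  calc ∑ d ∈ Dv q, phiQ d ≤ ∑ d ∈ Dv q, (S d).card := Finset.sum_le_sum hcard
    _ = ∑ d ∈ Dv q, ∑ x : RQ q, if x ∈ S d then 1 else 0 := by
        refine Finset.sum_congr rfl fun d _ => ?_
        simp
    _ = ∑ x : RQ q, ∑ d ∈ Dv q, if x ∈ S d then 1 else 0 := Finset.sum_comm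
    _ = ∑ x : RQ q, ((Dv q).filter (fun d => x ∈ S d)).card := by
        refine Finset.sum_congr rfl fun x _ => ?_
        rw [Finset.card_filter]
    _ ≤ ∑ _x : RQ q, 4 := Finset.sum_le_sum fun x _ => hfib x
    _ = 4 * nrm q := by
        rw [Finset.sum_const, Finset.card_univ, smul_eq_mul, mul_comm, ← Nat.card_eq_fintype_card,
          card_RQ]

theorem sum_Dv (q : ZI) (hq : q ≠ 0) :
    (∑ d ∈ H385.H10.Dv q, nrm d) * phiQ q ≤ 4 * nrm q ^ 2 := by
  rw [Finset.sum_mul]
  have h1 : ∀ d ∈ Dv q, nrm d * phiQ q ≤ nrm q * phiQ d := by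
    intro d hd
    rw [mul_comm]
    exact sg_one hq ((mem_Dv hq d).1 hd)
  refine (Finset.sum_le_sum h1).trans ?_
  rw [← Finset.mul_sum]
  calc nrm q * ∑ d ∈ Dv q, phiQ d ≤ nrm q * (4 * nrm q) := Nat.mul_le_mul_left _ (sg_two hq)
    _ = 4 * nrm q ^ 2 := by ring

end Pool.Agent.A856.SE
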