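import Pool.Agent.A856.SE.Exact
import Pool.Agent.H385R5.HE11

/-!
# The density theorem for all Hecke characters of infinity type one modulo `q`

Owner helper856 (Selberg's density theorem for elliptic curves over ray class fields).
-/

set_option autoImplicit false

open NumberField Complex

namespace Pool.Agent.A856.SE

open Pool.Agent.A856.SD (Zst Zst_bdd fin_zeros)
open Pool.Agent.H304R3.HK (tc HC psi LH tc_star_mul one_le_norm_tc goodH)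
open H385 (ZI RQ chiZ FQs phiQ nrm)

lemma tc_nrm (d : ZI) : ‖tc d‖ ^ 2 = (nrm d : ℝ) := by
  have h1 : (Zsqrtd.norm d : ℝ) = ‖tc d‖ ^ 2 := (tc_star_mul d).symm
  rw [← h1]
  unfold nrm
  rw [Nat.cast_natAbs, abs_of_nonneg (GaussianInt.norm_nonneg d)]

/-- the number of the zeros, with multiplicity -/
noncomputable def nz (χ : ZI →* ℂ) (δ t r : ℝ) : ℝ :=
  ∑ᶠ ρ ∈ Zst (LH χ) δ t r, (analyticOrderNatAt (LH χ) ρ : ℝ)

lemma LH_diff {d : ZI} {χ : ZI →* ℂ} (H : HC d χ) : Differentiable ℂ (LH χ) := by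
  obtain ⟨A, -, h⟩ := goodH
  exact (h d χ H).1

lemma LH_nz {d : ZI} {χ : ZI →* ℂ} (H : HC d χ) : ∃ z, LH χ z ≠ 0 := by
  obtain ⟨A, -, h⟩ := goodH
  exact ⟨⟨2, 1⟩, (h d χ H).2.2.2.nzr _ (by norm_num) (by norm_num)⟩

lemma Zst_fin {d : ZI} {χ : ZI →* ℂ} (H : HC d χ) (δ t r : ℝ) : (Zst (LH χ) δ t r).Finite :=
  fin_zeros (LH_diff H) (LH_nz H) (Zst_bdd _ _ _ _) fun _ hz => hz.1

lemma nz_nonneg (χ : ZI →* ℂ) (δ t r : ℝ) : 0 ≤ nz χ δ t r :=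
  finsum_nonneg fun _ => finsum_nonneg fun _ => Nat.cast_nonneg _

lemma nz_mono {d : ZI} {χ : ZI →* ℂ} (H : HC d χ) {δ t r δ' t' r' : ℝ}
    (h : Zst (LH χ) δ t r ⊆ Zst (LH χ) δ' t' r') : nz χ δ t r ≤ nz χ δ' t' r' := by
  unfold nz
  rw [finsum_mem_eq_finite_toFinset_sum _ (Zst_fin H δ t r),
    finsum_mem_eq_finite_toFinset_sum _ (Zst_fin H δ' t' r')]
  refine Finset.sum_le_sum_of_subset_of_nonneg ?_ fun _ _ _ => Nat.cast_nonneg _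
  intro ρ hρ
  rw [Set.Finite.mem_toFinset] at hρ ⊢
  exact h hρ

lemma nz_zero {χ : ZI →* ℂ} {δ t r : ℝ} (hδ : 1 / 2 < δ) : nz χ δ t r = 0 := by
  have : Zst (LH χ) δ t r = ∅ := by
    ext ρ
    simp only [Set.mem_empty_iff_false, iff_false]
    rintro ⟨-, h1, h2, h3, -⟩
    have : |ρ.re - 1 / 2| ≤ 1 / 2 := by rw [abs_le]; constructor <;> linarith
    linarith
  unfold nz
  rw [this]
  simp

/-- the characters of small conductor -/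
theorem small_part (X₀ T : ℝ) : ∃ C : ℝ, 0 ≤ C ∧ ∀ Y : Finset (ZI →* ℂ),
    (∀ χ ∈ Y, ∃ d : ZI, HC d χ ∧ (nrm d : ℝ) < X₀) → ∀ δ t r : ℝ, 0 ≤ δ → |t| ≤ T → r ≤ 1 →
      ∑ χ ∈ Y, nz χ δ t r ≤ C := by
  classical
  have hfin : {χ : ZI →* ℂ | ∃ d : ZI, HC d χ ∧ (nrm d : ℝ) < X₀}.Finite := by
    have h1 : {χ : ZI →* ℂ | ∃ d : ZI, HC d χ ∧ (nrm d : ℝ) < X₀} ⊆
        ⋃ d ∈ (H385.BX ⌈X₀⌉₊ : Finset ZI), {χ : ZI →* ℂ | HC d χ} := by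
      rintro χ ⟨d, h2, h3⟩
      rw [Set.mem_iUnion₂]
      refine ⟨d, ?_, h2⟩
      rw [H385.H10.mem_BX]
      refine ⟨H385.H10.nrm_pos h2.q0, ?_⟩
      have h4 : (nrm d : ℝ) ≤ (⌈X₀⌉₊ : ℝ) := h3.le.trans (Nat.le_ceil _)
      exact_mod_cast h4
    refine Set.Finite.subset ?_ h1
    refine Set.Finite.biUnion (Finset.finite_toSet _) fun d hd => ?_
    rw [Finset.mem_coe, H385.H10.mem_BX] at hd
    have hd0 : d ≠ 0 := by
      rintro rfl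
      simp [nrm] at hd
    exact (hc_finite hd0).1
  refine ⟨∑ χ ∈ hfin.toFinset, nz χ 0 0 (T + 1), Finset.sum_nonneg fun χ _ => nz_nonneg _ _ _ _, ?_⟩
  intro Y hY δ t r hδ ht hr
  have h1 : ∀ χ ∈ Y, nz χ δ t r ≤ nz χ 0 0 (T + 1) := by
    intro χ hχ
    obtain ⟨d, h2, -⟩ := hY χ hχ
    refine nz_mono h2 ?_
    rintro ρ ⟨h3, h4, h5, -, h6⟩
    refine ⟨h3, h4, h5, abs_nonneg _, ?_⟩
    have h7 := abs_add_le t (ρ.im - t)
    rw [add_sub_cancel] at h7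
    rw [sub_zero]
    linarith
  refine (Finset.sum_le_sum h1).trans ?_
  refine Finset.sum_le_sum_of_subset_of_nonneg (fun χ hχ => ?_) fun χ _ _ => nz_nonneg _ _ _ _
  rw [Set.Finite.mem_toFinset]
  exact hY χ hχ

/-- the sum over the divisors -/
theorem div_sum {c c' : ℝ} (hc0 : 0 < c) (hcc : c < c') (hc1 : c' < 1)
    (hsum : ∀ q : ZI, q ≠ 0 → (∑ d ∈ H385.H10.Dv q, nrm d) * phiQ q ≤ 4 * nrm q ^ 2) {κ : ℝ}
    (hκ : 0 < κ) : ∃ C : ℝ, 0 < C ∧ ∀ q : ZI, q ≠ 0 → κ * (nrm q : ℝ) ≤ phiQ q → ∀ δ : ℝ, 0 ≤ δ →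
      δ ≤ 1 / 2 → ∑ d ∈ H385.H10.Dv q, (nrm d : ℝ) ^ (1 - c' * δ) ≤
        C * (nrm q : ℝ) ^ (1 - c * δ) := by
  obtain ⟨θ, hθ⟩ : ∃ θ : ℝ, θ = c / c' := ⟨_, rfl⟩
  have hc'0 : 0 < c' := by linarith
  have hθ0 : 0 < θ := by rw [hθ]; positivity
  have hθ1 : θ < 1 := by rw [hθ, div_lt_one hc'0]; exact hcc
  have hθc : θ * c' = c := by rw [hθ]; field_simp
  obtain ⟨C1, hC1, hdiv⟩ := Pool.Agent.H369R2.divisor_bound ((1 - θ) / 2) (by linarith)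
  refine ⟨4 / κ + 4 * C1 ^ 2, by positivity, ?_⟩
  intro q hq hφ δ hδ0 hδ1
  obtain ⟨N, hN⟩ : ∃ N : ℝ, N = (nrm q : ℝ) := ⟨_, rfl⟩
  have hN1 : 1 ≤ nrm q := H385.H10.nrm_pos hq
  have hN1' : (1 : ℝ) ≤ N := by rw [hN]; exact_mod_cast hN1
  have hN0 : 0 < N := by linarith
  rw [← hN] at hφ ⊢
  have hcδ : 0 ≤ 1 - c' * δ := by nlinarith
  have hd : ∀ d ∈ H385.H10.Dv q, (1 : ℝ) ≤ (nrm d : ℝ) ∧ (nrm d : ℝ) ≤ N := by
    intro d hd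
    rw [H385.H10.mem_Dv hq] at hd
    have hd0 : d ≠ 0 := by
      rintro rfl
      exact hq (zero_dvd_iff.1 hd)
    refine ⟨by exact_mod_cast H385.H10.nrm_pos hd0, ?_⟩
    rw [hN]
    exact_mod_cast H385.he3_nrm hd hq
  -- each divisor
  have hone : ∀ d ∈ H385.H10.Dv q, (nrm d : ℝ) ^ (1 - c' * δ) ≤
      (nrm d : ℝ) * N ^ (-(c * δ)) + N ^ (θ - c * δ) := by
    intro d hdm
    obtain ⟨h1, h2⟩ := hd d hdm
    have h3 : 0 < (nrm d : ℝ) := by linarith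
    rcases le_or_gt (N ^ θ) (nrm d : ℝ) with h4 | h4
    · have h5 : (nrm d : ℝ) ^ (1 - c' * δ) ≤ (nrm d : ℝ) * N ^ (-(c * δ)) := by
        rw [sub_eq_add_neg, Real.rpow_add h3, Real.rpow_one]
        apply mul_le_mul_of_nonneg_left _ h3.le
        have h6 : (nrm d : ℝ) ^ (-(c' * δ)) ≤ (N ^ θ) ^ (-(c' * δ)) :=
          Real.rpow_le_rpow_of_nonpos (Real.rpow_pos_of_pos hN0 _) h4 (by nlinarith)
        refine h6.trans (le_of_eq ?_)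
        rw [← Real.rpow_mul hN0.le]
        congr 1
        rw [← hθc]; ring
      have : 0 ≤ N ^ (θ - c * δ) := (Real.rpow_pos_of_pos hN0 _).le
      linarith
    · have h5 : (nrm d : ℝ) ^ (1 - c' * δ) ≤ N ^ (θ - c * δ) := by
        have h6 : (nrm d : ℝ) ^ (1 - c' * δ) ≤ (N ^ θ) ^ (1 - c' * δ) :=
          Real.rpow_le_rpow h3.le h4.le hcδ
        refine h6.trans (le_of_eq ?_)
        rw [← Real.rpow_mul hN0.le]
        congr 1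
        rw [← hθc]; ring
      have : 0 ≤ (nrm d : ℝ) * N ^ (-(c * δ)) := by positivity
      linarith
  refine (Finset.sum_le_sum hone).trans ?_
  rw [Finset.sum_add_distrib, ← Finset.sum_mul, Finset.sum_const, nsmul_eq_mul]
  -- the sum of the norms
  have e1 : ∑ d ∈ H385.H10.Dv q, (nrm d : ℝ) ≤ 4 / κ * N := by
    have h1 := hsum q hq
    have h2 : (∑ d ∈ H385.H10.Dv q, (nrm d : ℝ)) * (phiQ q : ℝ) ≤ 4 * N ^ 2 := by
      rw [hN]; exact_mod_cast h1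
    have h3 : 0 ≤ ∑ d ∈ H385.H10.Dv q, (nrm d : ℝ) := Finset.sum_nonneg fun _ _ => Nat.cast_nonneg _
    have h4 : (∑ d ∈ H385.H10.Dv q, (nrm d : ℝ)) * (κ * N) ≤ 4 * N ^ 2 :=
      (mul_le_mul_of_nonneg_left hφ h3).trans h2
    rw [div_mul_eq_mul_div, le_div_iff₀ hκ]
    have h5 : (∑ d ∈ H385.H10.Dv q, (nrm d : ℝ)) * κ * N ≤ (4 * N) * N := by nlinarith
    exact le_of_mul_le_mul_right h5 hN0
  have e2 : ((H385.H10.Dv q).card : ℝ) ≤ 4 * C1 ^ 2 * N ^ (1 - θ) := by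
    have h1 : ((H385.H10.Dv q).card : ℝ) ≤ 4 * ((nrm q).divisors.card : ℝ) ^ 2 := by
      exact_mod_cast H385.H10.card_Dv q hq
    have h2 := hdiv (nrm q) hN1
    rw [← hN] at h2
    have h3 : ((nrm q).divisors.card : ℝ) ^ 2 ≤ (C1 * N ^ ((1 - θ) / 2)) ^ 2 :=
      pow_le_pow_left₀ (Nat.cast_nonneg _) h2 2
    have h4 : (C1 * N ^ ((1 - θ) / 2)) ^ 2 = C1 ^ 2 * N ^ (1 - θ) := by
      rw [mul_pow, ← Real.rpow_natCast (N ^ ((1 - θ) / 2)) 2, ← Real.rpow_mul hN0.le]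
      congr 2
      push_cast; ring
    rw [h4] at h3
    linarith
  have e3 : N * N ^ (-(c * δ)) = N ^ (1 - c * δ) := by
    rw [sub_eq_add_neg, Real.rpow_add hN0, Real.rpow_one]
  have e4 : N ^ (1 - θ) * N ^ (θ - c * δ) = N ^ (1 - c * δ) := by
    rw [← Real.rpow_add hN0]; congr 1; ring
  have p1 : 0 < N ^ (-(c * δ)) := Real.rpow_pos_of_pos hN0 _
  have p2 : 0 < N ^ (θ - c * δ) := Real.rpow_pos_of_pos hN0 _
  calc (∑ d ∈ H385.H10.Dv q, (nrm d : ℝ)) * N ^ (-(c * δ)) +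
        ((H385.H10.Dv q).card : ℝ) * N ^ (θ - c * δ)
      ≤ (4 / κ * N) * N ^ (-(c * δ)) + (4 * C1 ^ 2 * N ^ (1 - θ)) * N ^ (θ - c * δ) := by
        gcongr
    _ = 4 / κ * (N * N ^ (-(c * δ))) + 4 * C1 ^ 2 * (N ^ (1 - θ) * N ^ (θ - c * δ)) := by ring
    _ = _ := by rw [e3, e4]; ring

end Pool.Agent.A856.SE
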