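import Pool.Agent.A856.SE.ExactK
import Pool.Agent.A856.SE.Fam
import Pool.Agent.Y762.HK.Cond
import Pool.Agent.Y762.EG.Chars

/-!
# The density theorem for all Hecke characters of odd infinity type modulo `q`

Owner helper856 (Selberg's density theorem for the powers of an elliptic curve over ray class fields).
-/

set_option autoImplicit false

open NumberField Complex

namespace Pool.Agent.A856.SE

open Pool.Agent.A856.SD (Zst Zst_bdd fin_zeros)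
open Pool.Agent.H304R3.HK (tc tc_star_mul one_le_norm_tc)
open Pool.Agent.W354.PK (HCk psik LK bK uh_psik goodK)
open H385 (ZI RQ chiZ phiQ nrm im1)
open Pool.Agent.Y762.HK (PrimData)
open Pool.Agent.Y762.EG (FQk mem_FQk)

/-- the number of the zeros, with multiplicity -/
noncomputable def nzK (k : ℕ) (χ : ZI →* ℂ) (δ t r : ℝ) : ℝ :=
  ∑ᶠ ρ ∈ Zst (LK k χ) δ t r, (analyticOrderNatAt (LK k χ) ρ : ℝ)

lemma LK_diff {k : ℕ} (hk : 1 ≤ k) {d : ZI} {χ : ZI →* ℂ} (H : HCk k d χ) : Differentiable ℂ (LK k χ) := by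
  obtain ⟨A, -, h⟩ := goodK
  exact (h k d χ hk H).1

lemma LK_nz {k : ℕ} (hk : 1 ≤ k) {d : ZI} {χ : ZI →* ℂ} (H : HCk k d χ) : ∃ z, LK k χ z ≠ 0 := by
  obtain ⟨A, -, h⟩ := goodK
  exact ⟨⟨2, 1⟩, (h k d χ hk H).2.2.2.nzr _ (by norm_num) (by norm_num)⟩

lemma Zst_finK {k : ℕ} (hk : 1 ≤ k) {d : ZI} {χ : ZI →* ℂ} (H : HCk k d χ) (δ t r : ℝ) : (Zst (LK k χ) δ t r).Finite :=
  fin_zeros (LK_diff hk H) (LK_nz hk H) (Zst_bdd _ _ _ _) fun _ hz => hz.1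

lemma nzK_nonneg (k : ℕ) (χ : ZI →* ℂ) (δ t r : ℝ) : 0 ≤ nzK k χ δ t r :=
  finsum_nonneg fun _ => finsum_nonneg fun _ => Nat.cast_nonneg _

lemma nzK_mono {k : ℕ} (hk : 1 ≤ k) {d : ZI} {χ : ZI →* ℂ} (H : HCk k d χ) {δ t r δ' t' r' : ℝ}
    (h : Zst (LK k χ) δ t r ⊆ Zst (LK k χ) δ' t' r') : nzK k χ δ t r ≤ nzK k χ δ' t' r' := by
  unfold nzK
  rw [finsum_mem_eq_finite_toFinset_sum _ (Zst_finK hk H δ t r),
    finsum_mem_eq_finite_toFinset_sum _ (Zst_finK hk H δ' t' r')]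
  refine Finset.sum_le_sum_of_subset_of_nonneg ?_ fun _ _ _ => Nat.cast_nonneg _
  intro ρ hρ
  rw [Set.Finite.mem_toFinset] at hρ ⊢
  exact h hρ

lemma nzK_zero {k : ℕ} {χ : ZI →* ℂ} {δ t r : ℝ} (hδ : 1 / 2 < δ) : nzK k χ δ t r = 0 := by
  have : Zst (LK k χ) δ t r = ∅ := by
    ext ρ
    simp only [Set.mem_empty_iff_false, iff_false]
    rintro ⟨-, h1, h2, h3, -⟩
    have : |ρ.re - 1 / 2| ≤ 1 / 2 := by rw [abs_le]; constructor <;> linarith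
    linarith
  unfold nzK
  rw [this]
  simp

/-- the characters of small conductor -/
theorem small_partK {k : ℕ} (hk : 1 ≤ k) (X₀ T : ℝ) : ∃ C : ℝ, 0 ≤ C ∧ ∀ Y : Finset (ZI →* ℂ),
    (∀ χ ∈ Y, ∃ d : ZI, HCk k d χ ∧ (nrm d : ℝ) < X₀) → ∀ δ t r : ℝ, 0 ≤ δ → |t| ≤ T → r ≤ 1 →
      ∑ χ ∈ Y, nzK k χ δ t r ≤ C := by
  classical
  have hfin : {χ : ZI →* ℂ | ∃ d : ZI, HCk k d χ ∧ (nrm d : ℝ) < X₀}.Finite := by
    have h1 : {χ : ZI →* ℂ | ∃ d : ZI, HCk k d χ ∧ (nrm d : ℝ) < X₀} ⊆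
        ⋃ d ∈ (H385.BX ⌈X₀⌉₊ : Finset ZI), {χ : ZI →* ℂ | HCk k d χ} := by
      rintro χ ⟨d, h2, h3⟩
      rw [Set.mem_iUnion₂]
      refine ⟨d, ?_, h2⟩
      rw [H385.H10.mem_BX]
      refine ⟨H385.H10.nrm_pos h2.q0, ?_⟩
      have h4 : (nrm d : ℝ) ≤ (⌈X₀⌉₊ : ℝ) := h3.le.trans (Nat.le_ceil _)
      exact_mod_cast h4
    refine Set.Finite.subset ?_ h1
    refine Set.Finite.biUnion (Finset.finite_toSet _) fun d hd => ?_
    rw [Finset.mem_coe, H385.H10.mem_BX] at hd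
    have hd0 : d ≠ 0 := by
      rintro rfl
      simp [nrm] at hd
    exact (hck_finite hd0).1
  refine ⟨∑ χ ∈ hfin.toFinset, nzK k χ 0 0 (T + 1), Finset.sum_nonneg fun χ _ => nzK_nonneg _ _ _ _ _, ?_⟩
  intro Y hY δ t r hδ ht hr
  have h1 : ∀ χ ∈ Y, nzK k χ δ t r ≤ nzK k χ 0 0 (T + 1) := by
    intro χ hχ
    obtain ⟨d, h2, -⟩ := hY χ hχ
    refine nzK_mono hk h2 ?_
    rintro ρ ⟨h3, h4, h5, -, h6⟩
    refine ⟨h3, h4, h5, abs_nonneg _, ?_⟩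
    have h7 := abs_add_le t (ρ.im - t)
    rw [add_sub_cancel] at h7
    rw [sub_zero]
    linarith
  refine (Finset.sum_le_sum h1).trans ?_
  refine Finset.sum_le_sum_of_subset_of_nonneg (fun χ hχ => ?_) fun χ _ _ => nzK_nonneg _ _ _ _ _
  rw [Set.Finite.mem_toFinset]
  exact hY χ hχ

section
variable (cd : (q : ZI) → MulChar (RQ q) ℂ → ZI)
    (pr : (q : ZI) → MulChar (RQ q) ℂ → (ZI →* ℂ))
    (hprim : ∀ q : ZI, q ≠ 0 → ∀ χ, PrimData q χ (cd q χ) (pr q χ))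

include hprim

theorem pr_injK {q : ZI} (hq : q ≠ 0) : Function.Injective (pr q) := by
  intro χ χ' h
  apply MulChar.ext
  intro u
  obtain ⟨a, ha⟩ := Ideal.Quotient.mk_surjective (u : RQ q)
  obtain ⟨b, hb⟩ := Ideal.Quotient.mk_surjective ((u⁻¹ : (RQ q)ˣ) : RQ q)
  have h1 : IsCoprime a q := by
    have h2 : Ideal.Quotient.mk (Ideal.span {q}) (a * b) =
        Ideal.Quotient.mk (Ideal.span {q}) 1 := by
      rw [map_mul, ha, hb, map_one, Units.mul_inv]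
    rw [Ideal.Quotient.eq, Ideal.mem_span_singleton] at h2
    obtain ⟨w, hw⟩ := h2
    exact ⟨b, -w, by linear_combination hw⟩
  have h3 := (hprim q hq χ).eq a h1
  have h4 := (hprim q hq χ').eq a h1
  rw [h, h4] at h3
  have h6 : χ' (Ideal.Quotient.mk (Ideal.span {q}) a) =
      χ (Ideal.Quotient.mk (Ideal.span {q}) a) := h3
  rw [ha] at h6
  exact h6.symm

theorem fam_densK (l : ℕ) (hsum : ∀ q : ZI, q ≠ 0 →
      (∑ d ∈ H385.H10.Dv q, nrm d) * phiQ q ≤ 4 * nrm q ^ 2)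
    {c κ T : ℝ} (hc0 : 0 < c) (hc1 : c < 1) (hκ : 0 < κ) (hT : 0 ≤ T) :
    ∃ C : ℝ, 0 < C ∧ ∀ q : ZI, 8 ≤ nrm q → κ * (nrm q : ℝ) ≤ phiQ q → ∀ δ t : ℝ, 0 ≤ δ →
      |t| ≤ T → ∑ χ ∈ FQk q (2 * l + 1), nzK (2 * l + 1) (pr q χ) δ t (1 / Real.log (nrm q)) ≤
        C * (nrm q : ℝ) ^ (1 - c * δ) := by
  classical
  obtain ⟨c', hc'⟩ : ∃ c' : ℝ, c' = (1 + c) / 2 := ⟨_, rfl⟩
  have hcc : c < c' := by rw [hc']; linarith
  have hc'1 : c' < 1 := by rw [hc']; linarith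
  have hc'0 : 0 < c' := by linarith
  obtain ⟨C0, L₀, B, hC0, hL₀, hex⟩ := dens_exactK l hc'0 hc'1
  obtain ⟨Cs, hCs, hsm⟩ := small_partK (k := 2 * l + 1) (by omega) (Real.exp L₀) T
  obtain ⟨Cd, hCd, hdv⟩ := div_sum hc0 hcc hc'1 hsum hκ
  refine ⟨C0 * (1 + T) ^ B * Cd + Cs, by positivity, ?_⟩
  intro q hq8 hφ δ t hδ ht
  have hq : q ≠ 0 := by
    rintro rfl
    simp [nrm] at hq8
  obtain ⟨N, hN⟩ : ∃ N : ℝ, N = (nrm q : ℝ) := ⟨_, rfl⟩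
  have hN8 : (8 : ℝ) ≤ N := by rw [hN]; exact_mod_cast hq8
  have hN0 : 0 < N := by linarith
  obtain ⟨L, hL⟩ : ∃ L : ℝ, L = Real.log N := ⟨_, rfl⟩
  have hL1 : 1 ≤ L := by
    rw [hL, Real.le_log_iff_exp_le hN0]
    have := Real.exp_one_lt_d9
    linarith
  have hL0 : 0 < L := by linarith
  have hpos : 0 ≤ (C0 * (1 + T) ^ B * Cd + Cs) * N ^ (1 - c * δ) := by positivity
  have hP : ∀ χ ∈ FQk q (2 * l + 1), cd q χ ∣ q ∧ HCk (2 * l + 1) (cd q χ) (pr q χ) := by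
    intro χ hχ
    rw [mem_FQk hq] at hχ
    exact ⟨(hprim q hq χ).dvd, (hprim q hq χ).hck hq _ hχ⟩
  rw [← hN, ← hL]
  rw [← hN] at hφ
  rcases lt_or_ge (1 / 2) δ with hδ2 | hδ2
  · refine le_trans (le_of_eq ?_) hpos
    exact Finset.sum_eq_zero fun χ _ => nzK_zero hδ2
  have hcd0 : ∀ χ ∈ FQk q (2 * l + 1), cd q χ ≠ 0 := fun χ hχ => (hP χ hχ).2.q0
  have hcdm : ∀ χ ∈ FQk q (2 * l + 1), cd q χ ∈ H385.H10.Dv q := fun χ hχ =>
    (H385.H10.mem_Dv hq _).2 (hP χ hχ).1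
  rw [← Finset.sum_filter_add_sum_filter_not (FQk q (2 * l + 1))
    (fun χ => Real.exp L₀ ≤ (nrm (cd q χ) : ℝ))]
  rw [add_mul]
  refine add_le_add ?_ ?_
  · -- large conductors
    rw [← Finset.sum_fiberwise_of_maps_to (g := fun χ => cd q χ) (t := H385.H10.Dv q)
      (fun χ hχ => hcdm χ (Finset.mem_filter.mp hχ).1)]
    have h1 : ∀ d ∈ H385.H10.Dv q, ∑ χ ∈ ((FQk q (2 * l + 1)).filter
        (fun χ => Real.exp L₀ ≤ (nrm (cd q χ) : ℝ))).filter (fun χ => cd q χ = d),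
        nzK (2 * l + 1) (pr q χ) δ t (1 / L) ≤ C0 * (1 + T) ^ B * (nrm d : ℝ) ^ (1 - c' * δ) := by
      intro d hd
      obtain ⟨S, hS⟩ : ∃ S : Finset (MulChar (RQ q) ℂ), S = ((FQk q (2 * l + 1)).filter
        (fun χ => Real.exp L₀ ≤ (nrm (cd q χ) : ℝ))).filter (fun χ => cd q χ = d) := ⟨_, rfl⟩
      rw [← hS]
      rcases S.eq_empty_or_nonempty with hE | ⟨χ₀, hχ₀⟩
      · rw [hE, Finset.sum_empty]
        positivity
      have hSm : ∀ χ ∈ S, χ ∈ FQk q (2 * l + 1) ∧ Real.exp L₀ ≤ (nrm d : ℝ) ∧ cd q χ = d := by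
        intro χ hχ
        rw [hS, Finset.mem_filter, Finset.mem_filter] at hχ
        obtain ⟨⟨h2, h3⟩, h4⟩ := hχ
        rw [h4] at h3
        exact ⟨h2, h3, h4⟩
      obtain ⟨-, hdX, -⟩ := hSm χ₀ hχ₀
      have hd0 : (0 : ℝ) < nrm d := lt_of_lt_of_le (Real.exp_pos _) hdX
      obtain ⟨Ld, hLd⟩ : ∃ Ld : ℝ, Ld = Real.log (nrm d) := ⟨_, rfl⟩
      have hLde : Real.exp Ld = ‖tc d‖ ^ 2 := by rw [hLd, Real.exp_log hd0, tc_nrm]
      have hLdL : L₀ ≤ Ld := by rw [hLd, Real.le_log_iff_exp_le hd0]; exact hdX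
      have hLdq : Ld ≤ L := by
        rw [hLd, hL]
        apply Real.log_le_log hd0
        rw [hN]
        rw [H385.H10.mem_Dv hq] at hd
        exact_mod_cast H385.he3_nrm hd hq
      have hLd0 : 0 < Ld := by linarith
      have hinj : Set.InjOn (pr q) (S : Set (MulChar (RQ q) ℂ)) :=
        (pr_injK cd pr hprim hq).injOn
      have hY : ∀ χ ∈ S.image (pr q), HCk (2 * l + 1) d χ := by
        intro χ' hχ'
        obtain ⟨χ, hχ, rfl⟩ := Finset.mem_image.mp hχ'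
        obtain ⟨h2, -, h4⟩ := hSm χ hχ
        have := (hP χ h2).2
        rwa [h4] at this
      obtain ⟨-, h2⟩ := hex d Ld hLde hLdL (S.image (pr q)) hY
      have h3 := h2 δ t hδ
      rw [Finset.sum_image hinj] at h3
      have h4 : ∀ χ ∈ S, nzK (2 * l + 1) (pr q χ) δ t (1 / L) ≤ nzK (2 * l + 1) (pr q χ) δ t (1 / Ld) := by
        intro χ hχ
        refine nzK_mono (by omega) (hY _ (Finset.mem_image_of_mem _ hχ)) ?_
        rintro ρ ⟨a1, a2, a3, a4, a5⟩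
        refine ⟨a1, a2, a3, a4, a5.trans ?_⟩
        exact one_div_le_one_div_of_le hLd0 hLdq
      refine (Finset.sum_le_sum h4).trans (h3.trans ?_)
      have h5 : Real.exp (Ld - c' * Ld * δ) = (nrm d : ℝ) ^ (1 - c' * δ) := by
        rw [Real.rpow_def_of_pos hd0, ← hLd]
        congr 1
        ring
      rw [h5]
      have h6 : (1 + |t|) ^ B ≤ (1 + T) ^ B :=
        pow_le_pow_left₀ (by positivity) (by linarith) B
      gcongr
    refine (Finset.sum_le_sum h1).trans ?_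
    rw [← Finset.mul_sum]
    have h2 := hdv q hq (by rw [← hN]; exact hφ) δ hδ hδ2
    rw [← hN] at h2
    calc C0 * (1 + T) ^ B * ∑ d ∈ H385.H10.Dv q, (nrm d : ℝ) ^ (1 - c' * δ)
        ≤ C0 * (1 + T) ^ B * (Cd * N ^ (1 - c * δ)) := by gcongr
      _ = _ := by ring
  · -- small conductors
    obtain ⟨S, hS⟩ : ∃ S : Finset (MulChar (RQ q) ℂ), S = (FQk q (2 * l + 1)).filter
        (fun χ => ¬ Real.exp L₀ ≤ (nrm (cd q χ) : ℝ)) := ⟨_, rfl⟩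
    rw [← hS]
    have hSm : ∀ χ ∈ S, χ ∈ FQk q (2 * l + 1) ∧ (nrm (cd q χ) : ℝ) < Real.exp L₀ := by
      intro χ hχ
      rw [hS, Finset.mem_filter, not_le] at hχ
      exact hχ
    have hinj : Set.InjOn (pr q) (S : Set (MulChar (RQ q) ℂ)) :=
      (pr_injK cd pr hprim hq).injOn
    have h1 := hsm (S.image (pr q)) (by
      intro χ' hχ'
      obtain ⟨χ, hχ, rfl⟩ := Finset.mem_image.mp hχ'
      exact ⟨cd q χ, (hP χ (hSm χ hχ).1).2, (hSm χ hχ).2⟩) δ t (1 / L) hδ ht (by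
        rw [div_le_one hL0]; exact hL1)
    rw [Finset.sum_image hinj] at h1
    refine h1.trans ?_
    have h2 : (1 : ℝ) ≤ N ^ (1 - c * δ) := by
      apply Real.one_le_rpow (by linarith)
      nlinarith
    exact le_mul_of_one_le_right hCs h2

end

end Pool.Agent.A856.SE
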