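import Pool.Agent.A856.SE.Fam

/-!
# The density theorem for all Hecke characters of infinity type one modulo `q`, continued

Owner helper856 (Selberg's density theorem for elliptic curves over ray class fields).
-/

set_option autoImplicit false

open NumberField Complex

namespace Pool.Agent.A856.SE

open Pool.Agent.A856.SD (Zst Zst_bdd fin_zeros)
open Pool.Agent.H304R3.HK (tc HC psi LH tc_star_mul one_le_norm_tc goodH)
open H385 (ZI RQ chiZ FQs phiQ nrm)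

section
variable (cd : (q : ZI) → MulChar (RQ q) ℂ → ZI)
    (pr : (q : ZI) → MulChar (RQ q) ℂ → (ZI →* ℂ))
    (hprim : ∀ q : ZI, q ≠ 0 → ∀ χ ∈ FQs q, cd q χ ∣ q ∧ HC (cd q χ) (pr q χ) ∧
      ∀ a : ZI, IsCoprime a q → pr q χ a = chiZ q χ a)

include hprim

theorem pr_inj {q : ZI} (hq : q ≠ 0) : Set.InjOn (pr q) (FQs q : Set (MulChar (RQ q) ℂ)) := by
  intro χ hχ χ' hχ' h
  apply MulChar.ext
  intro u
  obtain ⟨a, ha⟩ := Ideal.Quotient.mk_surjective (u : RQ q)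
  obtain ⟨b, hb⟩ := Ideal.Quotient.mk_surjective ((u⁻¹ : (RQ q)ˣ) : RQ q)
  have h1 : IsCoprime a q := by
    have h2 : Ideal.Quotient.mk (Ideal.span {q}) (a * b) =
        Ideal.Quotient.mk (Ideal.span {q}) 1 := by
      rw [map_mul, ha, hb, map_one, Units.mul_inv]
    rw [Ideal.Quotient.eq, Ideal.mem_span_singleton] at h2
    obtain ⟨w, hw⟩ := h2
    exact ⟨b, -w, by linear_combination hw⟩
  have h3 := (hprim q hq χ hχ).2.2 a h1
  have h4 := (hprim q hq χ' hχ').2.2 a h1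
  rw [h, h4] at h3
  have h6 : χ' (Ideal.Quotient.mk (Ideal.span {q}) a) =
      χ (Ideal.Quotient.mk (Ideal.span {q}) a) := h3
  rw [ha] at h6
  exact h6.symm

theorem fam_dens (hsum : ∀ q : ZI, q ≠ 0 →
      (∑ d ∈ H385.H10.Dv q, nrm d) * phiQ q ≤ 4 * nrm q ^ 2)
    {c κ T : ℝ} (hc0 : 0 < c) (hc1 : c < 1) (hκ : 0 < κ) (hT : 0 ≤ T) :
    ∃ C : ℝ, 0 < C ∧ ∀ q : ZI, 8 ≤ nrm q → κ * (nrm q : ℝ) ≤ phiQ q → ∀ δ t : ℝ, 0 ≤ δ →
      |t| ≤ T → ∑ χ ∈ FQs q, nz (pr q χ) δ t (1 / Real.log (nrm q)) ≤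
        C * (nrm q : ℝ) ^ (1 - c * δ) := by
  classical
  obtain ⟨c', hc'⟩ : ∃ c' : ℝ, c' = (1 + c) / 2 := ⟨_, rfl⟩
  have hcc : c < c' := by rw [hc']; linarith
  have hc'1 : c' < 1 := by rw [hc']; linarith
  have hc'0 : 0 < c' := by linarith
  obtain ⟨C0, L₀, B, hC0, hL₀, hex⟩ := dens_exact hc'0 hc'1
  obtain ⟨Cs, hCs, hsm⟩ := small_part (Real.exp L₀) T
  obtain ⟨Cd, hCd, hdv⟩ := div_sum hc0 hcc hc'1 hsum hκ
  refine ⟨C0 * (1 + T) ^ B * Cd + Cs, by positivity, ?_⟩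
  intro q hq8 hφ δ t hδ ht
  have hq : q ≠ 0 := by
    rintro rfl
    simp [nrm] at hq8
  obtain ⟨N, hN⟩ : ∃ N : ℝ, N = (nrm q : ℝ) := ⟨_, rfl⟩
  have hN8 : (8 : ℝ) ≤ N := by rw [hN]; exact_mod_cast hq8
  have hN0 : 0 < N := by linarith
  obtain ⟨L, hL⟩ : ∃ L : ℝ, L = Real.log N := ⟨_, rfl⟩
  have hL1 : 1 ≤ L := by
    rw [hL, Real.le_log_iff_exp_le hN0]
    have := Real.exp_one_lt_d9
    linarith
  have hL0 : 0 < L := by linarith
  have hpos : 0 ≤ (C0 * (1 + T) ^ B * Cd + Cs) * N ^ (1 - c * δ) := by positivity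
  have hP := hprim q hq
  rw [← hN, ← hL]
  rw [← hN] at hφ
  rcases lt_or_ge (1 / 2) δ with hδ2 | hδ2
  · refine le_trans (le_of_eq ?_) hpos
    exact Finset.sum_eq_zero fun χ _ => nz_zero hδ2
  have hcd0 : ∀ χ ∈ FQs q, cd q χ ≠ 0 := fun χ hχ => (hP χ hχ).2.1.q0
  have hcdm : ∀ χ ∈ FQs q, cd q χ ∈ H385.H10.Dv q := fun χ hχ =>
    (H385.H10.mem_Dv hq _).2 (hP χ hχ).1
  rw [← Finset.sum_filter_add_sum_filter_not (FQs q)
    (fun χ => Real.exp L₀ ≤ (nrm (cd q χ) : ℝ))]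
  rw [add_mul]
  refine add_le_add ?_ ?_
  · -- large conductors
    rw [← Finset.sum_fiberwise_of_maps_to (g := fun χ => cd q χ) (t := H385.H10.Dv q)
      (fun χ hχ => hcdm χ (Finset.mem_filter.mp hχ).1)]
    have h1 : ∀ d ∈ H385.H10.Dv q, ∑ χ ∈ ((FQs q).filter
        (fun χ => Real.exp L₀ ≤ (nrm (cd q χ) : ℝ))).filter (fun χ => cd q χ = d),
        nz (pr q χ) δ t (1 / L) ≤ C0 * (1 + T) ^ B * (nrm d : ℝ) ^ (1 - c' * δ) := by
      intro d hd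
      obtain ⟨S, hS⟩ : ∃ S : Finset (MulChar (RQ q) ℂ), S = ((FQs q).filter
        (fun χ => Real.exp L₀ ≤ (nrm (cd q χ) : ℝ))).filter (fun χ => cd q χ = d) := ⟨_, rfl⟩
      rw [← hS]
      rcases S.eq_empty_or_nonempty with hE | ⟨χ₀, hχ₀⟩
      · rw [hE, Finset.sum_empty]
        positivity
      have hSm : ∀ χ ∈ S, χ ∈ FQs q ∧ Real.exp L₀ ≤ (nrm d : ℝ) ∧ cd q χ = d := by
        intro χ hχ
        rw [hS, Finset.mem_filter, Finset.mem_filter] at hχ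
        obtain ⟨⟨h2, h3⟩, h4⟩ := hχ
        rw [h4] at h3
        exact ⟨h2, h3, h4⟩
      obtain ⟨-, hdX, -⟩ := hSm χ₀ hχ₀
      have hd0 : (0 : ℝ) < nrm d := lt_of_lt_of_le (Real.exp_pos _) hdX
      obtain ⟨Ld, hLd⟩ : ∃ Ld : ℝ, Ld = Real.log (nrm d) := ⟨_, rfl⟩
      have hLde : Real.exp Ld = ‖tc d‖ ^ 2 := by rw [hLd, Real.exp_log hd0, tc_nrm]
      have hLdL : L₀ ≤ Ld := by rw [hLd, Real.le_log_iff_exp_le hd0]; exact hdX
      have hLdq : Ld ≤ L := by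
        rw [hLd, hL]
        apply Real.log_le_log hd0
        rw [hN]
        rw [H385.H10.mem_Dv hq] at hd
        exact_mod_cast H385.he3_nrm hd hq
      have hLd0 : 0 < Ld := by linarith
      have hinj : Set.InjOn (pr q) (S : Set (MulChar (RQ q) ℂ)) :=
        (pr_inj cd pr hprim hq).mono fun χ hχ => (hSm χ hχ).1
      have hY : ∀ χ ∈ S.image (pr q), HC d χ := by
        intro χ' hχ'
        obtain ⟨χ, hχ, rfl⟩ := Finset.mem_image.mp hχ'
        obtain ⟨h2, -, h4⟩ := hSm χ hχ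
        have := (hP χ h2).2.1
        rwa [h4] at this
      obtain ⟨-, h2⟩ := hex d Ld hLde hLdL (S.image (pr q)) hY
      have h3 := h2 δ t hδ
      rw [Finset.sum_image hinj] at h3
      have h4 : ∀ χ ∈ S, nz (pr q χ) δ t (1 / L) ≤ nz (pr q χ) δ t (1 / Ld) := by
        intro χ hχ
        refine nz_mono (hY _ (Finset.mem_image_of_mem _ hχ)) ?_
        rintro ρ ⟨a1, a2, a3, a4, a5⟩
        refine ⟨a1, a2, a3, a4, a5.trans ?_⟩
        exact one_div_le_one_div_of_le hLd0 hLdq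
      refine (Finset.sum_le_sum h4).trans (h3.trans ?_)
      have h5 : Real.exp (Ld - c' * Ld * δ) = (nrm d : ℝ) ^ (1 - c' * δ) := by
        rw [Real.rpow_def_of_pos hd0, ← hLd]
        congr 1
        ring
      rw [h5]
      have h6 : (1 + |t|) ^ B ≤ (1 + T) ^ B :=
        pow_le_pow_left₀ (by positivity) (by linarith) B
      gcongr
    refine (Finset.sum_le_sum h1).trans ?_
    rw [← Finset.mul_sum]
    have h2 := hdv q hq (by rw [← hN]; exact hφ) δ hδ hδ2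
    rw [← hN] at h2
    calc C0 * (1 + T) ^ B * ∑ d ∈ H385.H10.Dv q, (nrm d : ℝ) ^ (1 - c' * δ)
        ≤ C0 * (1 + T) ^ B * (Cd * N ^ (1 - c * δ)) := by gcongr
      _ = _ := by ring
  · -- small conductors
    obtain ⟨S, hS⟩ : ∃ S : Finset (MulChar (RQ q) ℂ), S = (FQs q).filter
        (fun χ => ¬ Real.exp L₀ ≤ (nrm (cd q χ) : ℝ)) := ⟨_, rfl⟩
    rw [← hS]
    have hSm : ∀ χ ∈ S, χ ∈ FQs q ∧ (nrm (cd q χ) : ℝ) < Real.exp L₀ := by
      intro χ hχ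
      rw [hS, Finset.mem_filter, not_le] at hχ
      exact hχ
    have hinj : Set.InjOn (pr q) (S : Set (MulChar (RQ q) ℂ)) :=
      (pr_inj cd pr hprim hq).mono fun χ hχ => (hSm χ hχ).1
    have h1 := hsm (S.image (pr q)) (by
      intro χ' hχ'
      obtain ⟨χ, hχ, rfl⟩ := Finset.mem_image.mp hχ'
      exact ⟨cd q χ, (hP χ (hSm χ hχ).1).2.1, (hSm χ hχ).2⟩) δ t (1 / L) hδ ht (by
        rw [div_le_one hL0]; exact hL1)
    rw [Finset.sum_image hinj] at h1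
    refine h1.trans ?_
    have h2 : (1 : ℝ) ≤ N ^ (1 - c * δ) := by
      apply Real.one_le_rpow (by linarith)
      nlinarith
    exact le_mul_of_one_le_right hCs h2

end

end Pool.Agent.A856.SE
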