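import Pool.Agent.A856.SE.GoodH
import Pool.Agent.W354.PK.FinK

/-!
Growth and functional equation of the Hecke L-functions of `ℚ(i)` of infinity type `k` (adapted from
`Pool/Agent/A856/SE/GoodH.lean`, `k = 1`).
-/

set_option autoImplicit false

open NumberField Complex

namespace Pool.Agent.A856.SE

open Pool.Agent.A856.SD (Good)
open Pool.Agent.H304R3.HK (tc UH CS bb)
open Pool.Agent.W354.PK (HCk psik bK LK FFk LLk THk Thk)
open Pool.Agent.Y773 (LI)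

namespace GoodKAux

open GoodHAux (gam_bd norm_Gamma_one_add inv_rec norm_Gamma_neg)
open Pool.Agent.W354.PK.L2x (re_k im_k)

theorem re_k' (k : ℕ) (z : ℂ) : (1 - z + k / 2 : ℂ).re = 1 - z.re + k / 2 := by
  rw [re_k]; simp

theorem im_k' (k : ℕ) (z : ℂ) : (1 - z + k / 2 : ℂ).im = -z.im := by
  rw [im_k]; simp

theorem ratio_bound (k : ℕ) (hk : 1 ≤ k) (m : ℕ) : ∃ A : ℝ, 0 < A ∧ ∀ z : ℂ,
    1 / 2 - m ≤ z.re → z.re ≤ 1 / 2 →
    ‖Complex.Gamma (1 - z + k / 2) * (Complex.Gamma (z + k / 2))⁻¹‖ ≤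
      A * (1 + ‖z‖) ^ (2 * m + k) := by
  obtain ⟨c, B, hc, hB, hcB⟩ := gam_bd (m + k)
  have hm : (0 : ℝ) ≤ m := Nat.cast_nonneg m
  have hk1 : (1 : ℝ) ≤ k := by exact_mod_cast hk
  have hM : (((m + k : ℕ) : ℝ)) = m + k := by push_cast; ring
  have hGm : 0 < Real.Gamma (((m + k : ℕ) : ℝ) + 1) :=
    Real.Gamma_pos_of_pos (by rw [hM]; linarith)
  refine ⟨B / (Real.Gamma (((m + k : ℕ) : ℝ) + 1) * c) *
    ((m + k + 1 : ℝ) ^ (m + k) * (m + k + 1 : ℝ) ^ m), by positivity,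
    fun z h1 h2 => ?_⟩
  set y : ℝ := z.im with hy
  have hz0 := norm_nonneg z
  have hyz : |y| ≤ ‖z‖ := Complex.abs_im_le_norm z
  have ea : (1 - z + k / 2 : ℂ) = ((1 - z.re + k / 2 : ℝ) : ℂ) + ((-y : ℝ) : ℂ) * I := by
    apply Complex.ext
    · rw [re_k']; simp
    · rw [im_k']; simp [hy]
  have eb : (z + k / 2 + m : ℂ) = ((z.re + k / 2 + m : ℝ) : ℂ) + (y : ℂ) * I := by
    apply Complex.ext
    · rw [Complex.add_re, re_k]; simp
    · rw [Complex.add_im, im_k]; simp [hy]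
  have p1 := Pool.Agent.H336R4.PF.taskP1 (1 - z.re + k / 2) (((m + k : ℕ) : ℝ) + 1) (-y)
    (by linarith) (by rw [hM]; linarith)
  rw [← ea] at p1
  have p2 := Pool.Agent.H336R4.PF.taskP1 1 (z.re + k / 2 + m) y (by norm_num) (by linarith)
  rw [← eb] at p2
  have q1 := (hcB (1 - z.re + k / 2) (by linarith) (by rw [hM]; linarith)).2
  have q2 := (hcB (z.re + k / 2 + m) (by linarith) (by rw [hM]; linarith)).1
  have g1 := norm_Gamma_one_add (m + k) (-y)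
  rw [norm_Gamma_neg] at g1
  set G1 := ‖Complex.Gamma (((1 : ℝ) : ℂ) + y * I)‖ with hG1
  have hG1p : 0 < G1 := by
    rw [hG1, norm_pos_iff]
    apply Complex.Gamma_ne_zero_of_re_pos
    simp
  have hP1 : ∏ j ∈ Finset.range (m + k), ‖((j + 1 : ℝ) : ℂ) + ((-y : ℝ) : ℂ) * I‖ ≤
      ((m + k + 1) * (1 + ‖z‖)) ^ (m + k) := by
    have : ∏ j ∈ Finset.range (m + k), ‖((j + 1 : ℝ) : ℂ) + ((-y : ℝ) : ℂ) * I‖ ≤
        ∏ _j ∈ Finset.range (m + k), ((m + k + 1) * (1 + ‖z‖)) := by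
      refine Finset.prod_le_prod (fun j _ => norm_nonneg _) fun j hj => ?_
      rw [Finset.mem_range] at hj
      have hj' : (j : ℝ) + 1 ≤ m + k := by exact_mod_cast hj
      refine (norm_add_le _ _).trans ?_
      rw [Complex.norm_real, norm_mul, Complex.norm_real, Complex.norm_I, mul_one,
        Real.norm_eq_abs, Real.norm_eq_abs, abs_of_nonneg (by positivity), abs_neg]
      nlinarith
    rwa [Finset.prod_const, Finset.card_range] at this
  have hP2 : ‖∏ j ∈ Finset.range m, (z + k / 2 + j)‖ ≤ ((m + k + 1) * (1 + ‖z‖)) ^ m := by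
    rw [norm_prod]
    have : ∏ j ∈ Finset.range m, ‖z + k / 2 + j‖ ≤
        ∏ _j ∈ Finset.range m, ((m + k + 1) * (1 + ‖z‖)) := by
      refine Finset.prod_le_prod (fun j _ => norm_nonneg _) fun j hj => ?_
      rw [Finset.mem_range] at hj
      have hj' : (j : ℝ) + 1 ≤ m := by exact_mod_cast hj
      have h3 : ‖z + k / 2 + (j : ℂ)‖ ≤ ‖z‖ + k / 2 + j := by
        refine (norm_add_le _ _).trans ?_
        refine add_le_add ((norm_add_le _ _).trans (add_le_add le_rfl ?_)) ?_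
        · rw [norm_div, Complex.norm_natCast]
          norm_num
        · rw [Complex.norm_natCast]
      nlinarith
    rwa [Finset.prod_const, Finset.card_range] at this
  set P1 := ∏ j ∈ Finset.range (m + k), ‖((j + 1 : ℝ) : ℂ) + ((-y : ℝ) : ℂ) * I‖ with hP1d
  have hP10 : 0 ≤ P1 := Finset.prod_nonneg fun j _ => norm_nonneg _
  rw [Real.Gamma_one, mul_one] at p2
  set GM := Real.Gamma (((m + k : ℕ) : ℝ) + 1) with hGM
  have r1 : ‖Complex.Gamma (1 - z + k / 2)‖ ≤ G1 * P1 * B / GM := by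
    rw [le_div_iff₀ hGm, ← g1]
    exact p1.trans (mul_le_mul_of_nonneg_left q1 (norm_nonneg _))
  have r2 : ‖(Complex.Gamma (z + k / 2 + m))⁻¹‖ ≤ (G1 * c)⁻¹ := by
    rw [norm_inv]
    refine inv_anti₀ (by positivity) ?_
    exact (mul_le_mul_of_nonneg_left q2 hG1p.le).trans p2
  rw [inv_rec m (z + k / 2), norm_mul, norm_mul]
  calc ‖Complex.Gamma (1 - z + k / 2)‖ * (‖∏ j ∈ Finset.range m, (z + k / 2 + (j : ℂ))‖ *
        ‖(Complex.Gamma (z + k / 2 + m))⁻¹‖)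
      ≤ (G1 * P1 * B / GM) * (((m + k + 1) * (1 + ‖z‖)) ^ m * (G1 * c)⁻¹) := by
        gcongr
    _ = B / (GM * c) * (P1 * ((m + k + 1) * (1 + ‖z‖)) ^ m) := by
        field_simp
    _ ≤ B / (GM * c) * (((m + k + 1) * (1 + ‖z‖)) ^ (m + k) *
          ((m + k + 1) * (1 + ‖z‖)) ^ m) := by
        gcongr
    _ = _ := by
        rw [mul_pow, mul_pow, two_mul, show m + m + k = (m + k) + m by ring, pow_add _ (m + k) m]
        ring

end GoodKAux

namespace GoodKAux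

open Pool.Agent.W354.PK (LL_fe FF_eq FF_entire)
open Pool.Agent.H304R3.HK.L2x (C0 C0_nonneg)
open Pool.Agent.W354.PK.L2x (FF_le_C0 HH HH_bound re_k)

/-- the factor -/
noncomputable def XK (k : ℕ) (κ : ℝ) (w : ℂ) (z : ℂ) : ℂ :=
  w * ((κ / Real.pi : ℝ) : ℂ) ^ (1 - 2 * z) *
    (Complex.Gamma (1 - z + k / 2) * (Complex.Gamma (z + k / 2))⁻¹)

theorem XK_fe (k : ℕ) {κ : ℝ} {b : ℕ → ℂ} {w : ℂ} (H : Thk k κ b w) (z : ℂ) (hz : z.re < 1) :
    FFk k b z = XK k κ w z * (starRingEnd ℂ) (FFk k b (1 - (starRingEnd ℂ) z)) := by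
  have hκ1 : (1 : ℝ) ≤ κ := H.k1
  have hκ0 : (0 : ℝ) < κ := by linarith
  have hk0 : (0 : ℝ) ≤ k := Nat.cast_nonneg k
  set Q : ℝ := κ / Real.pi with hQ
  have hQpos : 0 < Q := div_pos hκ0 Real.pi_pos
  have hQ0 : (Q : ℂ) ≠ 0 := by exact_mod_cast hQpos.ne'
  set s' : ℂ := 1 - (starRingEnd ℂ) z with hs'
  have hs're : s'.re = 1 - z.re := by simp [hs']
  have h1 : LLk k κ b z = w * (starRingEnd ℂ) (LLk k κ b s') := by
    have h := LL_fe k κ b w H (1 - z)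
    rw [sub_sub_cancel] at h
    rw [h, map_sub, map_one]
  have hG0 : Complex.Gamma (s' + k / 2) ≠ 0 := by
    apply Complex.Gamma_ne_zero_of_re_pos
    rw [re_k, hs're]
    linarith
  have h2 : LLk k κ b s' = Complex.Gamma (s' + k / 2) * (Q : ℂ) ^ (s' + k / 2) * FFk k b s' := by
    rw [FF_eq k κ hκ1, ← hQ, Complex.cpow_neg]
    have h3 : (Q : ℂ) ^ (s' + k / 2) ≠ 0 := by
      rw [Complex.cpow_ne_zero_iff]; left; exact hQ0
    generalize (Q : ℂ) ^ (s' + k / 2) = X at h3 ⊢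
    generalize Complex.Gamma (s' + k / 2) = G at hG0 ⊢
    field_simp
  have e0 : (starRingEnd ℂ) (s' + k / 2) = 1 - z + k / 2 := by
    rw [hs']
    simp only [map_add, map_sub, map_one, Complex.conj_conj, map_div₀, map_ofNat, map_natCast]
  have e1 : (starRingEnd ℂ) (Complex.Gamma (s' + k / 2)) = Complex.Gamma (1 - z + k / 2) := by
    rw [← Complex.Gamma_conj, e0]
  have e2 : (starRingEnd ℂ) ((Q : ℂ) ^ (s' + k / 2)) = (Q : ℂ) ^ (1 - z + k / 2) := by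
    rw [← e0, Complex.cpow_conj, Complex.conj_ofReal]
    rw [Complex.arg_ofReal_of_nonneg hQpos.le]
    exact Real.pi_pos.ne
  have e3 : (Q : ℂ) ^ (1 - 2 * z) = (Q : ℂ) ^ (-(z + k / 2)) * (Q : ℂ) ^ (1 - z + k / 2) := by
    rw [← Complex.cpow_add _ _ hQ0]
    congr 1
    ring
  rw [FF_eq k κ hκ1 b z, ← hQ, h1, h2, map_mul, map_mul, e1, e2]
  unfold XK
  rw [← hQ, e3]
  ring

theorem XK_diff (k : ℕ) {κ : ℝ} (hκ : 0 < κ) (w : ℂ) {z : ℂ} (hz : z.re < 1) :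
    DifferentiableAt ℂ (XK k κ w) z := by
  have hQ0 : ((κ / Real.pi : ℝ) : ℂ) ≠ 0 := by
    exact_mod_cast (div_pos hκ Real.pi_pos).ne'
  have hk0 : (0 : ℝ) ≤ k := Nat.cast_nonneg k
  unfold XK
  refine DifferentiableAt.mul (DifferentiableAt.mul (differentiableAt_const w) ?_)
    (DifferentiableAt.mul ?_ ?_)
  · exact DifferentiableAt.const_cpow (by fun_prop) (Or.inl hQ0)
  · have h1 : DifferentiableAt ℂ Complex.Gamma (1 - z + k / 2) := by
      apply Complex.differentiableAt_Gamma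
      intro n hn
      have h2 := congrArg Complex.re hn
      rw [re_k', Complex.neg_re, Complex.natCast_re] at h2
      have h0 : (0 : ℝ) ≤ n := Nat.cast_nonneg n
      linarith
    exact DifferentiableAt.comp (g := Complex.Gamma) (f := fun z : ℂ => 1 - z + k / 2) z h1
      (by fun_prop)
  · exact DifferentiableAt.comp (g := fun s => (Complex.Gamma s)⁻¹)
      (f := fun z : ℂ => z + k / 2) z (Complex.differentiable_one_div_Gamma _) (by fun_prop)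

theorem XK_ne (k : ℕ) {κ : ℝ} (hκ : 0 < κ) {w : ℂ} (hw : ‖w‖ = 1) {z : ℂ} (hz0 : 0 < z.re)
    (hz : z.re < 1) : XK k κ w z ≠ 0 := by
  have hQ0 : ((κ / Real.pi : ℝ) : ℂ) ≠ 0 := by
    exact_mod_cast (div_pos hκ Real.pi_pos).ne'
  have hw0 : w ≠ 0 := by
    intro h
    rw [h, norm_zero] at hw
    exact zero_ne_one hw
  have hk0 : (0 : ℝ) ≤ k := Nat.cast_nonneg k
  unfold XK
  refine mul_ne_zero (mul_ne_zero hw0 ?_) (mul_ne_zero ?_ (inv_ne_zero ?_))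
  · rw [Complex.cpow_ne_zero_iff]; left; exact hQ0
  · apply Complex.Gamma_ne_zero_of_re_pos
    rw [re_k']
    linarith
  · apply Complex.Gamma_ne_zero_of_re_pos
    rw [re_k]
    linarith

theorem XK_bound (k : ℕ) {m : ℕ} {A : ℝ} (_hA : 0 < A)
    (hR : ∀ z : ℂ, 1 / 2 - m ≤ z.re → z.re ≤ 1 / 2 →
      ‖Complex.Gamma (1 - z + k / 2) * (Complex.Gamma (z + k / 2))⁻¹‖ ≤
        A * (1 + ‖z‖) ^ (2 * m + k))
    {κ : ℝ} (hκ : 1 ≤ κ) {w : ℂ} (hw : ‖w‖ = 1) {z : ℂ} (h1 : 1 / 2 - m ≤ z.re)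
    (h2 : z.re ≤ 1 / 2) :
    ‖XK k κ w z‖ ≤ max 1 A * (κ ^ 2) ^ (1 / 2 - z.re) * (1 + ‖z‖) ^ (2 * m + k) := by
  have hκ0 : (0 : ℝ) < κ := by linarith
  have hQpos : 0 < κ / Real.pi := div_pos hκ0 Real.pi_pos
  have hQq : κ / Real.pi ≤ κ := by
    rw [div_le_iff₀ Real.pi_pos]
    nlinarith [Real.pi_gt_three]
  have hz0 := norm_nonneg z
  unfold XK
  rw [norm_mul, norm_mul, hw, one_mul, Complex.norm_cpow_eq_rpow_re_of_pos hQpos]
  have h3 : (1 - 2 * z : ℂ).re = 1 - 2 * z.re := by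
    rw [Complex.sub_re, Complex.mul_re]
    norm_num
  rw [h3]
  have h4 : (κ / Real.pi) ^ (1 - 2 * z.re) ≤ (κ ^ 2) ^ (1 / 2 - z.re) := by
    have h5 : (κ ^ 2) ^ (1 / 2 - z.re) = κ ^ (1 - 2 * z.re) := by
      rw [← Real.rpow_natCast κ 2, ← Real.rpow_mul hκ0.le]
      congr 1
      push_cast
      ring
    rw [h5]
    exact Real.rpow_le_rpow hQpos.le hQq (by linarith)
  calc (κ / Real.pi) ^ (1 - 2 * z.re) *
        ‖Complex.Gamma (1 - z + k / 2) * (Complex.Gamma (z + k / 2))⁻¹‖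
      ≤ (κ ^ 2) ^ (1 / 2 - z.re) * (max 1 A * (1 + ‖z‖) ^ (2 * m + k)) := by
        refine mul_le_mul h4 ((hR z h1 h2).trans ?_) (norm_nonneg _) (by positivity)
        exact mul_le_mul_of_nonneg_right (le_max_right _ _) (by positivity)
    _ = _ := by ring

theorem FF_right (k : ℕ) {κ : ℝ} {b : ℕ → ℂ} {w : ℂ} (H : Thk k κ b w) (z : ℂ)
    (hz : -1 / 2 ≤ z.re) :
    ‖FFk k b z‖ ≤ 2 * (3 + k) ^ 2 * C0 * κ ^ 2 * (1 + ‖z‖) ^ 2 := by
  have hκ1 : (1 : ℝ) ≤ κ := H.k1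
  have hκ0 : (0 : ℝ) < κ := by linarith
  have hk0 : (0 : ℝ) ≤ k := Nat.cast_nonneg k
  have hC := C0_nonneg
  have hz0 := norm_nonneg z
  rcases le_total z.re (3 / 2) with h | h
  · have e1 := HH_bound k κ b w H z hz h
    unfold HH at e1
    rw [norm_mul, norm_mul, norm_inv, norm_pow,
      Complex.norm_cpow_eq_rpow_re_of_pos hκ0] at e1
    have hre : (z - 3 / 2).re = z.re - 3 / 2 := by rw [Complex.sub_re]; norm_num
    rw [hre] at e1
    have e2 : 0 < ‖z + (3 + k)‖ ^ 2 := by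
      have : z + (3 + k) ≠ 0 := by
        intro h0
        have := congrArg Complex.re h0
        simp at this
        linarith
      positivity
    have e3 : ‖z + (3 + k)‖ ^ 2 ≤ (3 + k) ^ 2 * (1 + ‖z‖) ^ 2 := by
      have h3 : ‖z + (3 + k)‖ ≤ ‖z‖ + (3 + k) := by
        refine (norm_add_le _ _).trans (add_le_add le_rfl ?_)
        refine (norm_add_le _ _).trans ?_
        rw [Complex.norm_natCast]
        norm_num
      have h4 : ‖z + (3 + k)‖ ≤ (3 + k) * (1 + ‖z‖) := by nlinarith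
      calc ‖z + (3 + k)‖ ^ 2 ≤ ((3 + k) * (1 + ‖z‖)) ^ 2 := pow_le_pow_left₀ (norm_nonneg _) h4 2
        _ = _ := by ring
    have e4 : (κ ^ 2)⁻¹ ≤ κ ^ (z.re - 3 / 2) := by
      rw [← Real.rpow_natCast, ← Real.rpow_neg hκ0.le]
      apply Real.rpow_le_rpow_of_exponent_le hκ1
      push_cast
      linarith
    have e5 : ‖FFk k b z‖ * (κ ^ 2)⁻¹ * (‖z + (3 + k)‖ ^ 2)⁻¹ ≤ 2 * C0 := by
      refine le_trans ?_ e1
      gcongr
    have e6 : ‖FFk k b z‖ ≤ 2 * C0 * (‖z + (3 + k)‖ ^ 2) * κ ^ 2 := by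
      have hq2 : (0 : ℝ) < κ ^ 2 := by positivity
      have : ‖FFk k b z‖ = (‖FFk k b z‖ * (κ ^ 2)⁻¹ * (‖z + (3 + k)‖ ^ 2)⁻¹) *
          (‖z + (3 + k)‖ ^ 2) * κ ^ 2 := by
        have e2' := e2.ne'
        generalize ‖z + (3 + (k : ℂ))‖ ^ 2 = N at e2' ⊢
        field_simp
      rw [this]
      gcongr
    calc ‖FFk k b z‖ ≤ 2 * C0 * (‖z + (3 + k)‖ ^ 2) * κ ^ 2 := e6
      _ ≤ 2 * C0 * ((3 + k) ^ 2 * (1 + ‖z‖) ^ 2) * κ ^ 2 := by gcongr
      _ = _ := by ring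
  · have e1 := FF_le_C0 k b H.b0 H.bd z h
    have e2 : (1 : ℝ) ≤ κ ^ 2 := by nlinarith
    have e3 : (1 : ℝ) ≤ (1 + ‖z‖) ^ 2 := by nlinarith
    have e5 : (1 : ℝ) ≤ 2 * (3 + k) ^ 2 := by nlinarith
    calc ‖FFk k b z‖ ≤ 1 * C0 * 1 * 1 := by linarith
      _ ≤ 2 * (3 + k) ^ 2 * C0 * κ ^ 2 * (1 + ‖z‖) ^ 2 := by gcongr

end GoodKAux

open GoodKAux in
theorem good_K (k : ℕ) (hk : 1 ≤ k) (m : ℕ) : ∃ (q : ℕ) (C : ℝ), 1 ≤ C ∧
    ∀ (d : GaussianInt) (χ : GaussianInt →* ℂ),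
    HCk k d χ → ∀ ψ : Ideal (𝓞 K0) →*₀ ℂ, (∀ 𝔞, ‖ψ 𝔞‖ ≤ 1) →
      (∀ s : ℂ, 1 < s.re → LK k χ s = LI ψ s) →
        ∃ X : ℂ → ℂ, Good K0 m q C (‖tc d‖ ^ 2) ψ (LK k χ) X := by
  obtain ⟨A, hA, hR⟩ := ratio_bound k hk m
  refine ⟨2 * m + k + 2, max 1 A, le_max_left _ _, fun d χ H ψ hψ hser => ?_⟩
  obtain ⟨w, hT⟩ := Pool.Agent.W354.PK.th_psik hk d χ H
  have hκ1 : 1 ≤ ‖tc d‖ := hT.k1
  have hκ0 : 0 < ‖tc d‖ := by linarith
  have hk0 : (0 : ℝ) ≤ k := Nat.cast_nonneg k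
  have hC := Pool.Agent.H304R3.HK.L2x.C0_nonneg
  have hfe : ∀ z : ℂ, z.re < 1 → LK k χ z = XK k ‖tc d‖ w z *
      (starRingEnd ℂ) (LK k χ (1 - (starRingEnd ℂ) z)) := fun z hz => XK_fe k hT z hz
  have hpow : ∀ z : ℂ, (1 + ‖z‖) ^ (2 * m + k) ≤ (1 + ‖z‖) ^ (2 * m + k + 2) := fun z =>
    pow_le_pow_right₀ (by linarith [norm_nonneg z]) (by omega)
  have hpow2 : ∀ z : ℂ, (1 + ‖z‖) ^ 2 ≤ (1 + ‖z‖) ^ (2 * m + k + 2) := fun z =>
    pow_le_pow_right₀ (by linarith [norm_nonneg z]) (by omega)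
  refine ⟨XK k ‖tc d‖ w, ?_⟩
  refine
    { nrm := hψ
      dF := Pool.Agent.W354.PK.FF_entire _ _ _ _ hT
      ser := hser
      dX := fun z hz => XK_diff k hκ0 w hz
      fe := hfe
      nX := fun z h1 h2 => XK_ne k hκ0 hT.w1 h1 h2
      bX := ?_
      bF := ?_ }
  · intro z h1 h2
    refine (XK_bound k hA hR hκ1 hT.w1 h1 h2).trans ?_
    exact mul_le_mul_of_nonneg_left (hpow z) (by positivity)
  · set κ : ℝ := ‖tc d‖ with hκ
    set D : ℝ := 2 * (3 + k) ^ 2 * Pool.Agent.H304R3.HK.L2x.C0 * κ ^ 2 with hD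
    have hD0 : 0 ≤ D := by positivity
    have hM : 0 < max 1 A := lt_of_lt_of_le one_pos (le_max_left _ _)
    have hright : ∀ z : ℂ, -1 / 2 ≤ z.re → ‖LK k χ z‖ ≤ D * (1 + ‖z‖) ^ 2 := fun z hz =>
      FF_right k hT z hz
    refine ⟨D + max 1 A * (κ ^ 2) ^ (m : ℝ) * (D * 4), by positivity, fun z h1 => ?_⟩
    have hz0 := norm_nonneg z
    rcases le_total z.re (1 / 2) with h2 | h2
    · have e1 := XK_bound k hA hR hκ1 hT.w1 h1 h2
      have e2 : -1 / 2 ≤ (1 - (starRingEnd ℂ) z).re := by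
        simp
        linarith
      have e3 := hright _ e2
      have e4 : ‖1 - (starRingEnd ℂ) z‖ ≤ 1 + ‖z‖ := by
        refine (norm_sub_le _ _).trans ?_
        rw [norm_one, RCLike.norm_conj]
      have e5 : (1 + ‖1 - (starRingEnd ℂ) z‖) ^ 2 ≤ 4 * (1 + ‖z‖) ^ 2 := by
        calc (1 + ‖1 - (starRingEnd ℂ) z‖) ^ 2 ≤ (2 * (1 + ‖z‖)) ^ 2 :=
              pow_le_pow_left₀ (by positivity) (by linarith) 2
          _ = _ := by ring
      have e6 : (κ ^ 2) ^ (1 / 2 - z.re) ≤ (κ ^ 2) ^ (m : ℝ) := by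
        apply Real.rpow_le_rpow_of_exponent_le
        · nlinarith
        · linarith
      rw [hfe z (by linarith), norm_mul, RCLike.norm_conj]
      calc ‖XK k κ w z‖ * ‖LK k χ (1 - (starRingEnd ℂ) z)‖
          ≤ (max 1 A * (κ ^ 2) ^ (m : ℝ) * (1 + ‖z‖) ^ (2 * m + k)) *
            (D * (4 * (1 + ‖z‖) ^ 2)) := by
            refine mul_le_mul (e1.trans ?_) (e3.trans ?_) (norm_nonneg _) (by positivity)
            · gcongr
            · gcongr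
        _ = max 1 A * (κ ^ 2) ^ (m : ℝ) * (D * 4) * (1 + ‖z‖) ^ (2 * m + k + 2) := by
            rw [pow_add _ (2 * m + k) 2]
            ring
        _ ≤ _ := by
            refine mul_le_mul_of_nonneg_right ?_ (by positivity)
            linarith
    · refine (hright z (by linarith)).trans ?_
      refine mul_le_mul ?_ (hpow2 z) (by positivity) (by positivity)
      have : 0 ≤ max 1 A * (κ ^ 2) ^ (m : ℝ) * (D * 4) := by positivity
      linarith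

end Pool.Agent.A856.SE
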