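import Pool.Agent.A856.SE.Defs
import Pool.Agent.A856.SD.Gamf
import Pool.Agent.H304R3.HK.Fin


set_option autoImplicit false

open NumberField Complex

namespace Pool.Agent.A856.SE

open Pool.Agent.A856.SD (Good)
open Pool.Agent.H304R3.HK (tc HC UH psi LH bH bb CS)
open Pool.Agent.Y773 (LI)

namespace GoodHAux

theorem gam_bd (m : ℕ) : ∃ c B : ℝ, 0 < c ∧ 0 < B ∧ ∀ σ : ℝ, 1 ≤ σ → σ ≤ m + 1 →
    c ≤ Real.Gamma σ ∧ Real.Gamma σ ≤ B := by
  have hm : (0 : ℝ) ≤ m := Nat.cast_nonneg m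
  have hK : IsCompact (Set.Icc (1 : ℝ) (m + 1)) := isCompact_Icc
  have hne : (Set.Icc (1 : ℝ) (m + 1)).Nonempty := ⟨1, le_refl _, by linarith⟩
  have hcont : ContinuousOn Real.Gamma (Set.Icc (1 : ℝ) (m + 1)) := by
    intro x hx
    refine (Real.differentiableAt_Gamma ?_).continuousAt.continuousWithinAt
    intro n hn
    have h1 := hx.1
    rw [hn] at h1
    have h0 : (0 : ℝ) ≤ n := Nat.cast_nonneg n
    linarith
  obtain ⟨x0, hx0, h0⟩ := hK.exists_isMinOn hne hcont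
  obtain ⟨x1, hx1, h1⟩ := hK.exists_isMaxOn hne hcont
  exact ⟨Real.Gamma x0, Real.Gamma x1, Real.Gamma_pos_of_pos (by linarith [hx0.1]),
    Real.Gamma_pos_of_pos (by linarith [hx1.1]), fun σ h2 h3 => ⟨h0 ⟨h2, h3⟩, h1 ⟨h2, h3⟩⟩⟩

theorem norm_Gamma_one_add (m : ℕ) (y : ℝ) :
    ‖Complex.Gamma (((m + 1 : ℝ) : ℂ) + y * I)‖ =
      ‖Complex.Gamma (((1 : ℝ) : ℂ) + y * I)‖ *
        ∏ j ∈ Finset.range m, ‖((j + 1 : ℝ) : ℂ) + y * I‖ := by
  induction m with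
  | zero => simp
  | succ m ih =>
    rw [Finset.prod_range_succ, ← mul_assoc, ← ih, ← norm_mul]
    have h0 : ((m + 1 : ℝ) : ℂ) + y * I ≠ 0 := by
      intro h
      have := congrArg Complex.re h
      simp at this
      have h1 : (0 : ℝ) ≤ m := Nat.cast_nonneg m
      linarith
    have h1 : (((m + 1 : ℕ) + 1 : ℝ) : ℂ) + y * I = ((m + 1 : ℝ) : ℂ) + y * I + 1 := by
      push_cast
      ring
    rw [h1, Complex.Gamma_add_one _ h0, mul_comm]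

theorem inv_rec (m : ℕ) (b : ℂ) :
    (Complex.Gamma b)⁻¹ = (∏ j ∈ Finset.range m, (b + j)) * (Complex.Gamma (b + m))⁻¹ := by
  induction m with
  | zero => simp
  | succ m ih =>
    rw [Finset.prod_range_succ, ih, Complex.one_div_Gamma_eq_self_mul_one_div_Gamma_add_one (b + m)]
    push_cast
    rw [add_assoc b (m : ℂ) 1, mul_assoc]

theorem norm_Gamma_neg (y : ℝ) :
    ‖Complex.Gamma (((1 : ℝ) : ℂ) + ((-y : ℝ) : ℂ) * I)‖ =
      ‖Complex.Gamma (((1 : ℝ) : ℂ) + y * I)‖ := by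
  have h : ((1 : ℝ) : ℂ) + ((-y : ℝ) : ℂ) * I = (starRingEnd ℂ) (((1 : ℝ) : ℂ) + y * I) := by
    simp
  rw [h, Complex.Gamma_conj, RCLike.norm_conj]

theorem ratio_bound (m : ℕ) : ∃ A : ℝ, 0 < A ∧ ∀ z : ℂ, 1 / 2 - m ≤ z.re → z.re ≤ 1 / 2 →
    ‖Complex.Gamma (3 / 2 - z) * (Complex.Gamma (z + 1 / 2))⁻¹‖ ≤ A * (1 + ‖z‖) ^ (2 * m) := by
  obtain ⟨c, B, hc, hB, hcB⟩ := gam_bd m
  have hm : (0 : ℝ) ≤ m := Nat.cast_nonneg m
  have hGm : 0 < Real.Gamma (m + 1) := Real.Gamma_pos_of_pos (by linarith)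
  refine ⟨B / (Real.Gamma (m + 1) * c) * ((m + 1 : ℝ) ^ m * (m + 1 : ℝ) ^ m), by positivity,
    fun z h1 h2 => ?_⟩
  set y : ℝ := z.im with hy
  have hz0 := norm_nonneg z
  have hyz : |y| ≤ ‖z‖ := Complex.abs_im_le_norm z
  have ea : (3 / 2 - z : ℂ) = ((3 / 2 - z.re : ℝ) : ℂ) + ((-y : ℝ) : ℂ) * I := by
    apply Complex.ext <;> simp [hy]
  have eb : (z + 1 / 2 + m : ℂ) = ((z.re + 1 / 2 + m : ℝ) : ℂ) + (y : ℂ) * I := by
    apply Complex.ext <;> simp [hy]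
  have p1 := Pool.Agent.H336R4.PF.taskP1 (3 / 2 - z.re) (m + 1) (-y) (by linarith) (by linarith)
  rw [← ea] at p1
  have p2 := Pool.Agent.H336R4.PF.taskP1 1 (z.re + 1 / 2 + m) y (by norm_num) (by linarith)
  rw [← eb] at p2
  have q1 := (hcB (3 / 2 - z.re) (by linarith) (by linarith)).2
  have q2 := (hcB (z.re + 1 / 2 + m) (by linarith) (by linarith)).1
  have g1 := norm_Gamma_one_add m (-y)
  rw [norm_Gamma_neg] at g1
  set G1 := ‖Complex.Gamma (((1 : ℝ) : ℂ) + y * I)‖ with hG1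
  have hG1p : 0 < G1 := by
    rw [hG1, norm_pos_iff]
    apply Complex.Gamma_ne_zero_of_re_pos
    simp
  have hP1 : ∏ j ∈ Finset.range m, ‖((j + 1 : ℝ) : ℂ) + ((-y : ℝ) : ℂ) * I‖ ≤
      ((m + 1) * (1 + ‖z‖)) ^ m := by
    have : ∏ j ∈ Finset.range m, ‖((j + 1 : ℝ) : ℂ) + ((-y : ℝ) : ℂ) * I‖ ≤
        ∏ _j ∈ Finset.range m, ((m + 1) * (1 + ‖z‖)) := by
      refine Finset.prod_le_prod (fun j _ => norm_nonneg _) fun j hj => ?_
      rw [Finset.mem_range] at hj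
      have hj' : (j : ℝ) + 1 ≤ m := by exact_mod_cast hj
      refine (norm_add_le _ _).trans ?_
      rw [Complex.norm_real, norm_mul, Complex.norm_real, Complex.norm_I, mul_one,
        Real.norm_eq_abs, Real.norm_eq_abs, abs_of_nonneg (by positivity), abs_neg]
      nlinarith
    rwa [Finset.prod_const, Finset.card_range] at this
  have hP2 : ‖∏ j ∈ Finset.range m, (z + 1 / 2 + j)‖ ≤ ((m + 1) * (1 + ‖z‖)) ^ m := by
    rw [norm_prod]
    have : ∏ j ∈ Finset.range m, ‖z + 1 / 2 + j‖ ≤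
        ∏ _j ∈ Finset.range m, ((m + 1) * (1 + ‖z‖)) := by
      refine Finset.prod_le_prod (fun j _ => norm_nonneg _) fun j hj => ?_
      rw [Finset.mem_range] at hj
      have hj' : (j : ℝ) + 1 ≤ m := by exact_mod_cast hj
      have h3 : ‖z + 1 / 2 + (j : ℂ)‖ ≤ ‖z‖ + 1 / 2 + j := by
        refine (norm_add_le _ _).trans ?_
        refine add_le_add ((norm_add_le _ _).trans (add_le_add le_rfl ?_)) ?_
        · norm_num
        · rw [Complex.norm_natCast]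
      nlinarith
    rwa [Finset.prod_const, Finset.card_range] at this
  set P1 := ∏ j ∈ Finset.range m, ‖((j + 1 : ℝ) : ℂ) + ((-y : ℝ) : ℂ) * I‖ with hP1d
  have hP10 : 0 ≤ P1 := Finset.prod_nonneg fun j _ => norm_nonneg _
  rw [Real.Gamma_one, mul_one] at p2
  have r1 : ‖Complex.Gamma (3 / 2 - z)‖ ≤ G1 * P1 * B / Real.Gamma (m + 1) := by
    rw [le_div_iff₀ hGm, ← g1]
    exact p1.trans (mul_le_mul_of_nonneg_left q1 (norm_nonneg _))
  have r2 : ‖(Complex.Gamma (z + 1 / 2 + m))⁻¹‖ ≤ (G1 * c)⁻¹ := by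
    rw [norm_inv]
    refine inv_anti₀ (by positivity) ?_
    exact (mul_le_mul_of_nonneg_left q2 hG1p.le).trans p2
  rw [inv_rec m (z + 1 / 2), norm_mul, norm_mul]
  calc ‖Complex.Gamma (3 / 2 - z)‖ * (‖∏ j ∈ Finset.range m, (z + 1 / 2 + (j : ℂ))‖ *
        ‖(Complex.Gamma (z + 1 / 2 + m))⁻¹‖)
      ≤ (G1 * P1 * B / Real.Gamma (m + 1)) * (((m + 1) * (1 + ‖z‖)) ^ m * (G1 * c)⁻¹) := by
        gcongr
    _ = B / (Real.Gamma (m + 1) * c) * (P1 * ((m + 1) * (1 + ‖z‖)) ^ m) := by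
        field_simp
    _ ≤ B / (Real.Gamma (m + 1) * c) * (((m + 1) * (1 + ‖z‖)) ^ m *
          ((m + 1) * (1 + ‖z‖)) ^ m) := by
        gcongr
    _ = _ := by
        rw [mul_pow, two_mul, pow_add]
        ring

end GoodHAux

namespace GoodHAux

open Pool.Agent.H304R3.HK (Th FF LL LL_fe FF_eq FF_entire)
open Pool.Agent.H304R3.HK.L2x (C0 C0_nonneg FF_le_C0 HH HH_bound)

/-- the factor -/
noncomputable def XH (κ : ℝ) (w : ℂ) (z : ℂ) : ℂ :=
  w * ((κ / Real.pi : ℝ) : ℂ) ^ (1 - 2 * z) *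
    (Complex.Gamma (3 / 2 - z) * (Complex.Gamma (z + 1 / 2))⁻¹)

theorem XH_fe {κ : ℝ} {b : ℕ → ℂ} {w : ℂ} (H : Th κ b w) (z : ℂ) (hz : z.re < 1) :
    FF b z = XH κ w z * (starRingEnd ℂ) (FF b (1 - (starRingEnd ℂ) z)) := by
  have hκ1 : (1 : ℝ) ≤ κ := H.k1
  have hκ0 : (0 : ℝ) < κ := by linarith
  set Q : ℝ := κ / Real.pi with hQ
  have hQpos : 0 < Q := div_pos hκ0 Real.pi_pos
  have hQ0 : (Q : ℂ) ≠ 0 := by exact_mod_cast hQpos.ne'
  set s' : ℂ := 1 - (starRingEnd ℂ) z with hs'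
  have hs're : s'.re = 1 - z.re := by simp [hs']
  have h1 : LL κ b z = w * (starRingEnd ℂ) (LL κ b s') := by
    have h := LL_fe κ b w H (1 - z)
    rw [sub_sub_cancel] at h
    rw [h, map_sub, map_one]
  have hG0 : Complex.Gamma (s' + 1 / 2) ≠ 0 := by
    apply Complex.Gamma_ne_zero_of_re_pos
    have : (s' + 1 / 2).re = 1 - z.re + 1 / 2 := by
      rw [Complex.add_re, hs're]; norm_num
    rw [this]; linarith
  have h2 : LL κ b s' = Complex.Gamma (s' + 1 / 2) * (Q : ℂ) ^ (s' + 1 / 2) * FF b s' := by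
    rw [FF_eq κ hκ1, ← hQ, Complex.cpow_neg]
    have h3 : (Q : ℂ) ^ (s' + 1 / 2) ≠ 0 := by
      rw [Complex.cpow_ne_zero_iff]; left; exact hQ0
    generalize (Q : ℂ) ^ (s' + 1 / 2) = X at h3 ⊢
    generalize Complex.Gamma (s' + 1 / 2) = G at hG0 ⊢
    field_simp
  have e0 : (starRingEnd ℂ) (s' + 1 / 2) = 3 / 2 - z := by
    rw [hs']
    simp only [map_add, map_sub, map_one, Complex.conj_conj, map_div₀, map_ofNat]
    ring
  have e1 : (starRingEnd ℂ) (Complex.Gamma (s' + 1 / 2)) = Complex.Gamma (3 / 2 - z) := by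
    rw [← Complex.Gamma_conj, e0]
  have e2 : (starRingEnd ℂ) ((Q : ℂ) ^ (s' + 1 / 2)) = (Q : ℂ) ^ (3 / 2 - z) := by
    rw [← e0, Complex.cpow_conj, Complex.conj_ofReal]
    rw [Complex.arg_ofReal_of_nonneg hQpos.le]
    exact Real.pi_pos.ne
  have e3 : (Q : ℂ) ^ (1 - 2 * z) = (Q : ℂ) ^ (-(z + 1 / 2)) * (Q : ℂ) ^ (3 / 2 - z) := by
    rw [← Complex.cpow_add _ _ hQ0]
    congr 1
    ring
  rw [FF_eq κ hκ1 b z, ← hQ, h1, h2, map_mul, map_mul, e1, e2]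
  unfold XH
  rw [← hQ, e3]
  ring

theorem XH_diff {κ : ℝ} (hκ : 0 < κ) (w : ℂ) {z : ℂ} (hz : z.re < 1) :
    DifferentiableAt ℂ (XH κ w) z := by
  have hQ0 : ((κ / Real.pi : ℝ) : ℂ) ≠ 0 := by
    exact_mod_cast (div_pos hκ Real.pi_pos).ne'
  unfold XH
  refine DifferentiableAt.mul (DifferentiableAt.mul (differentiableAt_const w) ?_)
    (DifferentiableAt.mul ?_ ?_)
  · exact DifferentiableAt.const_cpow (by fun_prop) (Or.inl hQ0)
  · have h1 : DifferentiableAt ℂ Complex.Gamma (3 / 2 - z) := by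
      apply Complex.differentiableAt_Gamma
      intro n hn
      have h2 := congrArg Complex.re hn
      have h3 : (3 / 2 - z : ℂ).re = 3 / 2 - z.re := by
        rw [Complex.sub_re]; norm_num
      rw [h3, Complex.neg_re, Complex.natCast_re] at h2
      have h0 : (0 : ℝ) ≤ n := Nat.cast_nonneg n
      linarith
    exact DifferentiableAt.comp (g := Complex.Gamma) (f := fun z : ℂ => 3 / 2 - z) z h1
      (by fun_prop)
  · exact DifferentiableAt.comp (g := fun s => (Complex.Gamma s)⁻¹)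
      (f := fun z : ℂ => z + 1 / 2) z (Complex.differentiable_one_div_Gamma _) (by fun_prop)

theorem XH_ne {κ : ℝ} (hκ : 0 < κ) {w : ℂ} (hw : ‖w‖ = 1) {z : ℂ} (hz0 : 0 < z.re)
    (hz : z.re < 1) : XH κ w z ≠ 0 := by
  have hQ0 : ((κ / Real.pi : ℝ) : ℂ) ≠ 0 := by
    exact_mod_cast (div_pos hκ Real.pi_pos).ne'
  have hw0 : w ≠ 0 := by
    intro h
    rw [h, norm_zero] at hw
    exact zero_ne_one hw
  unfold XH
  refine mul_ne_zero (mul_ne_zero hw0 ?_) (mul_ne_zero ?_ (inv_ne_zero ?_))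
  · rw [Complex.cpow_ne_zero_iff]; left; exact hQ0
  · apply Complex.Gamma_ne_zero_of_re_pos
    rw [Complex.sub_re]
    norm_num
    linarith
  · apply Complex.Gamma_ne_zero_of_re_pos
    rw [Complex.add_re]
    norm_num
    linarith

theorem XH_bound {m : ℕ} {A : ℝ} (_hA : 0 < A)
    (hR : ∀ z : ℂ, 1 / 2 - m ≤ z.re → z.re ≤ 1 / 2 →
      ‖Complex.Gamma (3 / 2 - z) * (Complex.Gamma (z + 1 / 2))⁻¹‖ ≤ A * (1 + ‖z‖) ^ (2 * m))
    {κ : ℝ} (hκ : 1 ≤ κ) {w : ℂ} (hw : ‖w‖ = 1) {z : ℂ} (h1 : 1 / 2 - m ≤ z.re)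
    (h2 : z.re ≤ 1 / 2) :
    ‖XH κ w z‖ ≤ max 1 A * (κ ^ 2) ^ (1 / 2 - z.re) * (1 + ‖z‖) ^ (2 * m) := by
  have hκ0 : (0 : ℝ) < κ := by linarith
  have hQpos : 0 < κ / Real.pi := div_pos hκ0 Real.pi_pos
  have hQq : κ / Real.pi ≤ κ := by
    rw [div_le_iff₀ Real.pi_pos]
    nlinarith [Real.pi_gt_three]
  have hz0 := norm_nonneg z
  unfold XH
  rw [norm_mul, norm_mul, hw, one_mul, Complex.norm_cpow_eq_rpow_re_of_pos hQpos]
  have h3 : (1 - 2 * z : ℂ).re = 1 - 2 * z.re := by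
    rw [Complex.sub_re, Complex.mul_re]
    norm_num
  rw [h3]
  have h4 : (κ / Real.pi) ^ (1 - 2 * z.re) ≤ (κ ^ 2) ^ (1 / 2 - z.re) := by
    have h5 : (κ ^ 2) ^ (1 / 2 - z.re) = κ ^ (1 - 2 * z.re) := by
      rw [← Real.rpow_natCast κ 2, ← Real.rpow_mul hκ0.le]
      congr 1
      push_cast
      ring
    rw [h5]
    exact Real.rpow_le_rpow hQpos.le hQq (by linarith)
  calc (κ / Real.pi) ^ (1 - 2 * z.re) *
        ‖Complex.Gamma (3 / 2 - z) * (Complex.Gamma (z + 1 / 2))⁻¹‖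
      ≤ (κ ^ 2) ^ (1 / 2 - z.re) * (max 1 A * (1 + ‖z‖) ^ (2 * m)) := by
        refine mul_le_mul h4 ((hR z h1 h2).trans ?_) (norm_nonneg _) (by positivity)
        exact mul_le_mul_of_nonneg_right (le_max_right _ _) (by positivity)
    _ = _ := by ring

theorem FF_right {κ : ℝ} {b : ℕ → ℂ} {w : ℂ} (H : Th κ b w) (z : ℂ) (hz : -1 / 2 ≤ z.re) :
    ‖FF b z‖ ≤ 18 * C0 * κ ^ 2 * (1 + ‖z‖) ^ 2 := by
  have hκ1 : (1 : ℝ) ≤ κ := H.k1
  have hκ0 : (0 : ℝ) < κ := by linarith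
  have hC := C0_nonneg
  have hz0 := norm_nonneg z
  rcases le_total z.re (3 / 2) with h | h
  · have e1 := HH_bound κ b w H z hz h
    unfold HH at e1
    rw [norm_mul, norm_mul, norm_inv, norm_pow,
      Complex.norm_cpow_eq_rpow_re_of_pos hκ0] at e1
    have hre : (z - 3 / 2).re = z.re - 3 / 2 := by rw [Complex.sub_re]; norm_num
    rw [hre] at e1
    have e2 : 0 < ‖z + 3‖ ^ 2 := by
      have : z + 3 ≠ 0 := by
        intro h0
        have := congrArg Complex.re h0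
        simp at this
        linarith
      positivity
    have e3 : ‖z + 3‖ ^ 2 ≤ 9 * (1 + ‖z‖) ^ 2 := by
      have h3 : ‖z + 3‖ ≤ ‖z‖ + 3 := by
        refine (norm_add_le _ _).trans (by norm_num)
      have h4 : ‖z + 3‖ ≤ 3 * (1 + ‖z‖) := by linarith
      calc ‖z + 3‖ ^ 2 ≤ (3 * (1 + ‖z‖)) ^ 2 := pow_le_pow_left₀ (norm_nonneg _) h4 2
        _ = _ := by ring
    have e4 : (κ ^ 2)⁻¹ ≤ κ ^ (z.re - 3 / 2) := by
      rw [← Real.rpow_natCast, ← Real.rpow_neg hκ0.le]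
      apply Real.rpow_le_rpow_of_exponent_le hκ1
      push_cast
      linarith
    have e5 : ‖FF b z‖ * (κ ^ 2)⁻¹ * (‖z + 3‖ ^ 2)⁻¹ ≤ 2 * C0 := by
      refine le_trans ?_ e1
      gcongr
    have e6 : ‖FF b z‖ ≤ 2 * C0 * (‖z + 3‖ ^ 2) * κ ^ 2 := by
      have hq2 : (0 : ℝ) < κ ^ 2 := by positivity
      have : ‖FF b z‖ = (‖FF b z‖ * (κ ^ 2)⁻¹ * (‖z + 3‖ ^ 2)⁻¹) *
          (‖z + 3‖ ^ 2) * κ ^ 2 := by
        have e2' := e2.ne'
        generalize ‖z + 3‖ ^ 2 = N at e2' ⊢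
        field_simp
      rw [this]
      gcongr
    calc ‖FF b z‖ ≤ 2 * C0 * (‖z + 3‖ ^ 2) * κ ^ 2 := e6
      _ ≤ 2 * C0 * (9 * (1 + ‖z‖) ^ 2) * κ ^ 2 := by gcongr
      _ = _ := by ring
  · have e1 := FF_le_C0 b H.b0 H.bd z h
    have e2 : (1 : ℝ) ≤ κ ^ 2 := by nlinarith
    have e3 : (1 : ℝ) ≤ (1 + ‖z‖) ^ 2 := by nlinarith
    have e4 : (1 : ℝ) ≤ κ ^ 2 * (1 + ‖z‖) ^ 2 := by nlinarith
    nlinarith

end GoodHAux

open GoodHAux in
theorem good_H (m : ℕ) : ∃ (q : ℕ) (C : ℝ), 1 ≤ C ∧ ∀ (d : GaussianInt) (χ : GaussianInt →* ℂ),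
    HC d χ → ∀ ψ : Ideal (𝓞 K0) →*₀ ℂ, (∀ 𝔞, ‖ψ 𝔞‖ ≤ 1) →
      (∀ s : ℂ, 1 < s.re → LH χ s = LI ψ s) →
        ∃ X : ℂ → ℂ, Good K0 m q C (‖tc d‖ ^ 2) ψ (LH χ) X := by
  obtain ⟨A, hA, hR⟩ := ratio_bound m
  refine ⟨2 * m + 2, max 1 A, le_max_left _ _, fun d χ H ψ hψ hser => ?_⟩
  obtain ⟨w, hT⟩ := Pool.Agent.H304R3.HK.th_psi d χ H
  have hκ1 : 1 ≤ ‖tc d‖ := hT.k1
  have hκ0 : 0 < ‖tc d‖ := by linarith
  have hC := Pool.Agent.H304R3.HK.L2x.C0_nonneg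
  have hfe : ∀ z : ℂ, z.re < 1 → LH χ z = XH ‖tc d‖ w z *
      (starRingEnd ℂ) (LH χ (1 - (starRingEnd ℂ) z)) := fun z hz => XH_fe hT z hz
  have hpow : ∀ z : ℂ, (1 + ‖z‖) ^ (2 * m) ≤ (1 + ‖z‖) ^ (2 * m + 2) := fun z =>
    pow_le_pow_right₀ (by linarith [norm_nonneg z]) (by omega)
  have hpow2 : ∀ z : ℂ, (1 + ‖z‖) ^ 2 ≤ (1 + ‖z‖) ^ (2 * m + 2) := fun z =>
    pow_le_pow_right₀ (by linarith [norm_nonneg z]) (by omega)
  refine ⟨XH ‖tc d‖ w, ?_⟩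
  refine
    { nrm := hψ
      dF := Pool.Agent.H304R3.HK.FF_entire _ _ _ hT
      ser := hser
      dX := fun z hz => XH_diff hκ0 w hz
      fe := hfe
      nX := fun z h1 h2 => XH_ne hκ0 hT.w1 h1 h2
      bX := ?_
      bF := ?_ }
  · intro z h1 h2
    refine (XH_bound hA hR hκ1 hT.w1 h1 h2).trans ?_
    exact mul_le_mul_of_nonneg_left (hpow z) (by positivity)
  · set κ : ℝ := ‖tc d‖ with hκ
    set D : ℝ := 18 * Pool.Agent.H304R3.HK.L2x.C0 * κ ^ 2 with hD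
    have hD0 : 0 ≤ D := by positivity
    have hM : 0 < max 1 A := lt_of_lt_of_le one_pos (le_max_left _ _)
    have hright : ∀ z : ℂ, -1 / 2 ≤ z.re → ‖LH χ z‖ ≤ D * (1 + ‖z‖) ^ 2 := fun z hz =>
      FF_right hT z hz
    refine ⟨D + max 1 A * (κ ^ 2) ^ (m : ℝ) * (D * 4), by positivity, fun z h1 => ?_⟩
    have hz0 := norm_nonneg z
    rcases le_total z.re (1 / 2) with h2 | h2
    · have e1 := XH_bound hA hR hκ1 hT.w1 h1 h2
      have e2 : -1 / 2 ≤ (1 - (starRingEnd ℂ) z).re := by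
        simp
        linarith
      have e3 := hright _ e2
      have e4 : ‖1 - (starRingEnd ℂ) z‖ ≤ 1 + ‖z‖ := by
        refine (norm_sub_le _ _).trans ?_
        rw [norm_one, RCLike.norm_conj]
      have e5 : (1 + ‖1 - (starRingEnd ℂ) z‖) ^ 2 ≤ 4 * (1 + ‖z‖) ^ 2 := by
        calc (1 + ‖1 - (starRingEnd ℂ) z‖) ^ 2 ≤ (2 * (1 + ‖z‖)) ^ 2 :=
              pow_le_pow_left₀ (by positivity) (by linarith) 2
          _ = _ := by ring
      have e6 : (κ ^ 2) ^ (1 / 2 - z.re) ≤ (κ ^ 2) ^ (m : ℝ) := by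
        apply Real.rpow_le_rpow_of_exponent_le
        · nlinarith
        · linarith
      rw [hfe z (by linarith), norm_mul, RCLike.norm_conj]
      calc ‖XH κ w z‖ * ‖LH χ (1 - (starRingEnd ℂ) z)‖
          ≤ (max 1 A * (κ ^ 2) ^ (m : ℝ) * (1 + ‖z‖) ^ (2 * m)) *
            (D * (4 * (1 + ‖z‖) ^ 2)) := by
            refine mul_le_mul (e1.trans ?_) (e3.trans ?_) (norm_nonneg _) (by positivity)
            · gcongr
            · gcongr
        _ = max 1 A * (κ ^ 2) ^ (m : ℝ) * (D * 4) * (1 + ‖z‖) ^ (2 * m + 2) := by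
            rw [pow_add]
            ring
        _ ≤ _ := by
            refine mul_le_mul_of_nonneg_right ?_ (by positivity)
            linarith
    · refine (hright z (by linarith)).trans ?_
      refine mul_le_mul ?_ (hpow2 z) (by positivity) (by positivity)
      have : 0 ≤ max 1 A * (κ ^ 2) ^ (m : ℝ) * (D * 4) := by positivity
      linarith

end Pool.Agent.A856.SE
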