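import Pool.Agent.A856.SE.Fam2
import Pool.Agent.W164.RC.Final
import Pool.Agent.A856.SD.Near

/-!
# The zeros of the product of the Hecke L-functions

Owner helper856 (Selberg's density theorem for elliptic curves over ray class fields).
-/

set_option autoImplicit false

open NumberField Complex

namespace Pool.Agent.A856.SE

open Pool.Agent.A856.SD (Zst Zst_bdd fin_zeros)
open Pool.Agent.H304R3.HK (tc HC psi LH tc_star_mul one_le_norm_tc goodH uh_psi)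
open H385 (ZI RQ chiZ FQs phiQ nrm)
open H370 (mult)
open Pool.Agent.H82R3.EK (cnt cnt_prod)
open Pool.Agent.W164.RC (FE FE_diff Cq Cq_diff Cq_ne order_mul_ne cnt_mul_ne cnt_mul)

/-- the region -/
def Wst (δ t r : ℝ) : Set ℂ := {s | 0 < s.re ∧ s.re < 1 ∧ δ ≤ |s.re - 1 / 2| ∧ |s.im - t| ≤ r}

lemma Zst_eq (F : ℂ → ℂ) (δ t r : ℝ) : Zst F δ t r = {s | s ∈ Wst δ t r ∧ F s = 0} := by
  ext s
  exact ⟨fun h => ⟨h.2, h.1⟩, fun h => ⟨h.2, h.1⟩⟩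

lemma cnt_Wst {F : ℂ → ℂ} {δ t r : ℝ} (hfin : (Zst F δ t r).Finite) :
    ∑ᶠ ρ ∈ Zst F δ t r, (analyticOrderNatAt F ρ : ℝ) = (cnt F (Wst δ t r) : ℝ) := by
  unfold cnt
  rw [← Zst_eq, finsum_mem_eq_finite_toFinset_sum _ hfin, finsum_mem_eq_finite_toFinset_sum _ hfin]
  push_cast
  rfl

section
variable (cd : (q : ZI) → MulChar (RQ q) ℂ → ZI)
    (pr : (q : ZI) → MulChar (RQ q) ℂ → (ZI →* ℂ))
    (hprim : ∀ q : ZI, q ≠ 0 → ∀ χ ∈ FQs q, cd q χ ∣ q ∧ HC (cd q χ) (pr q χ) ∧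
      ∀ a : ZI, IsCoprime a q → pr q χ a = chiZ q χ a)

include hprim

theorem ord_top {q : ZI} (hq : q ≠ 0) : ∀ χ ∈ FQs q, ∀ s : ℂ,
    analyticOrderAt (LH (pr q χ)) s ≠ ⊤ := by
  intro χ hχ s
  have H := (hprim q hq χ hχ).2.1
  obtain ⟨z, hz⟩ := LH_nz H
  exact H370.Loc.order_ne_top (K := Set.univ) isPreconnected_univ
    (fun z _ => (LH_diff H).analyticAt z) (Set.mem_univ _) hz (Set.mem_univ s)

theorem FE_cntW {q : ZI} (hq : q ≠ 0) (δ t r : ℝ) :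
    cnt (FE pr q) (Wst δ t r) = ∑ χ ∈ FQs q, cnt (LH (pr q χ)) (Wst δ t r) ∧
    (∀ s ∈ Wst δ t r, analyticOrderAt (FE pr q) s ≠ ⊤) ∧
    {s : ℂ | s ∈ Wst δ t r ∧ FE pr q s = 0}.Finite := by
  classical
  obtain ⟨W, hW⟩ : ∃ W : Set ℂ, W = Wst δ t r := ⟨_, rfl⟩
  rw [← hW]
  have han1 : ∀ χ ∈ FQs q, ∀ s, AnalyticAt ℂ (LH (pr q χ)) s := fun χ hχ s =>
    (LH_diff (hprim q hq χ hχ).2.1).analyticAt s
  have hre : ∀ s ∈ W, 0 < s.re := fun s hs => by rw [hW] at hs; exact hs.1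
  have hC : ∀ χ ∈ FQs q, ∀ s ∈ W, Cq q (psi (pr q χ)) s ≠ 0 := fun χ hχ s hs =>
    Cq_ne q (uh_psi _ _ (hprim q hq χ hχ).2.1) (hre s hs)
  have han : ∀ χ ∈ FQs q, ∀ s ∈ W,
      AnalyticAt ℂ (fun z => LH (pr q χ) z * Cq q (psi (pr q χ)) z) s :=
    fun χ hχ s _ => (han1 χ hχ s).mul ((Cq_diff q _).analyticAt s)
  have hord : ∀ χ ∈ FQs q, ∀ s ∈ W,
      analyticOrderAt (fun z => LH (pr q χ) z * Cq q (psi (pr q χ)) z) s ≠ ⊤ := by
    intro χ hχ s hs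
    rw [order_mul_ne (han1 χ hχ s) ((Cq_diff q _).analyticAt s) (hC χ hχ s hs)]
    exact ord_top cd pr hprim hq χ hχ s
  have hset : ∀ χ ∈ FQs q, {s : ℂ | s ∈ W ∧ LH (pr q χ) s * Cq q (psi (pr q χ)) s = 0}.Finite := by
    intro χ hχ
    refine (Zst_fin (hprim q hq χ hχ).2.1 δ t r).subset ?_
    rintro s ⟨h1, h2⟩
    have h3 := (mul_eq_zero.1 h2).resolve_right (hC χ hχ s h1)
    rw [Zst_eq, ← hW]
    exact ⟨h1, h3⟩
  refine ⟨?_, ?_, ?_⟩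
  · have h := cnt_prod (FQs q) (fun χ z => LH (pr q χ) z * Cq q (psi (pr q χ)) z) han hord hset
    have h0 : FE pr q = fun s => ∏ χ ∈ FQs q, (LH (pr q χ) s * Cq q (psi (pr q χ)) s) := rfl
    rw [h0, h]
    refine Finset.sum_congr rfl fun χ hχ => ?_
    exact cnt_mul_ne (fun s _ => han1 χ hχ s) (fun s _ => (Cq_diff q _).analyticAt s) (hC χ hχ)
  · intro s hs
    have h := Pool.Agent.H82R3.EK.mult_prod (FQs q)
      (fun χ z => LH (pr q χ) z * Cq q (psi (pr q χ)) z) (s := s)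
      (fun χ hχ => han χ hχ s hs) (fun χ hχ => hord χ hχ s hs)
    exact h.2.1
  · have hunion : (⋃ χ ∈ FQs q,
        {s : ℂ | s ∈ W ∧ LH (pr q χ) s * Cq q (psi (pr q χ)) s = 0}).Finite :=
      Set.Finite.biUnion (FQs q).finite_toSet hset
    refine hunion.subset ?_
    rintro s ⟨h1, h2⟩
    unfold FE at h2
    rw [Finset.prod_eq_zero_iff] at h2
    obtain ⟨χ, hχ, h3⟩ := h2
    exact Set.mem_biUnion hχ ⟨h1, h3⟩

/-- the product of the two functions -/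
theorem tot_Zst {q : ZI} (hq : q ≠ 0) (δ t r : ℝ) :
    (Zst (fun z => FE pr q z * FE pr (star q) z) δ t r).Finite ∧
    ∑ᶠ ρ ∈ Zst (fun z => FE pr q z * FE pr (star q) z) δ t r,
      (analyticOrderNatAt (fun z => FE pr q z * FE pr (star q) z) ρ : ℝ) =
      ∑ χ ∈ FQs q, nz (pr q χ) δ t r + ∑ χ ∈ FQs (star q), nz (pr (star q) χ) δ t r := by
  have hq' : star q ≠ 0 := fun h => hq (by rw [← star_star q, h, star_zero])
  have hd1 := FE_diff cd pr hprim hq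
  have hd2 := FE_diff cd pr hprim hq'
  obtain ⟨a1, a2, a3⟩ := FE_cntW cd pr hprim hq δ t r
  obtain ⟨b1, b2, b3⟩ := FE_cntW cd pr hprim hq' δ t r
  have hfin : (Zst (fun z => FE pr q z * FE pr (star q) z) δ t r).Finite := by
    rw [Zst_eq]
    refine (a3.union b3).subset ?_
    rintro s ⟨h1, h2⟩
    rcases mul_eq_zero.1 h2 with h | h
    · exact Or.inl ⟨h1, h⟩
    · exact Or.inr ⟨h1, h⟩
  refine ⟨hfin, ?_⟩
  rw [cnt_Wst hfin, cnt_mul (fun s _ => hd1.analyticAt s) (fun s _ => hd2.analyticAt s) a2 b2 a3 b3,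
    a1, b1]
  push_cast
  congr 1
  · refine Finset.sum_congr rfl fun χ hχ => ?_
    exact (cnt_Wst (Zst_fin (hprim q hq χ hχ).2.1 δ t r)).symm
  · refine Finset.sum_congr rfl fun χ hχ => ?_
    exact (cnt_Wst (Zst_fin (hprim _ hq' χ hχ).2.1 δ t r)).symm

theorem FE_nz {q : ZI} (hq : q ≠ 0) : FE pr q ⟨2, 1⟩ ≠ 0 := by
  obtain ⟨A, -, hgood⟩ := goodH
  unfold FE
  rw [Finset.prod_ne_zero_iff]
  intro χ hχ
  obtain ⟨b1, b2, b3⟩ := hprim q hq χ hχ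
  exact mul_ne_zero ((hgood _ _ b2).2.2.2.nzr _ (by norm_num) (by norm_num))
    (Cq_ne q (uh_psi _ _ b2) (by norm_num))

end

end Pool.Agent.A856.SE
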