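import Pool.Agent.A856.SE.Tot

/-!
# The zeros of the L-function of the elliptic curve over the ray class field

Owner helper856 (Selberg's density theorem for elliptic curves over ray class fields).
-/

set_option autoImplicit false

open NumberField Complex IsDedekindDomain

namespace Pool.Agent.A856.SE

open Pool.Agent.A856.SD (Zst Zst_bdd fin_zeros cnt_cover)
open Pool.Agent.H304R3.HK (tc HC psi LH tc_star_mul one_le_norm_tc goodH uh_psi)
open H385 (ZI RQ chiZ FQs phiQ nrm im1)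
open Pool.Agent.W164.RC (FE FE_diff two2 IsRayClassField ray_card hasProd_K eulerFactor eight_le_nrm
  phiQ_star two_dvd_star order_shift inj_shift)

/-- the zeros with `1/2 < Re s < 3/2` at distance at least `δ` from the line `Re s = 1`, with
`|Im s - t| ≤ r` -/
def Est (F : ℂ → ℂ) (δ t r : ℝ) : Set ℂ :=
  {s | F s = 0 ∧ 1 / 2 < s.re ∧ s.re < 3 / 2 ∧ δ ≤ |s.re - 1| ∧ |s.im - t| ≤ r}

/-- their number, with multiplicity -/
noncomputable def NE (F : ℂ → ℂ) (δ t r : ℝ) : ℝ :=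
  ∑ᶠ s ∈ Est F δ t r, (analyticOrderNatAt F s : ℝ)

lemma Est_shift (G : ℂ → ℂ) (δ t r : ℝ) :
    Est (fun z => G (z - 1 / 2)) δ t r = (fun s : ℂ => s + 1 / 2) '' Zst G δ t r := by
  ext s
  constructor
  · rintro ⟨h1, h2, h3, h4, h5⟩
    refine ⟨s - 1 / 2, ⟨h1, ?_, ?_, ?_, ?_⟩, by ring⟩
    · simp only [sub_re, div_ofNat_re, one_re]; linarith
    · simp only [sub_re, div_ofNat_re, one_re]; linarith
    · have : (s - 1 / 2).re - 1 / 2 = s.re - 1 := by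
        simp only [sub_re, div_ofNat_re, one_re]; ring
      rw [this]; exact h4
    · have : (s - 1 / 2).im = s.im := by simp
      rw [this]; exact h5
  · rintro ⟨z, ⟨h1, h2, h3, h4, h5⟩, rfl⟩
    have e1 : (z + 1 / 2).re = z.re + 1 / 2 := by simp
    have e2 : (z + 1 / 2).im = z.im := by simp
    refine ⟨?_, ?_, ?_, ?_, ?_⟩
    · show G (z + 1 / 2 - 1 / 2) = 0
      rw [add_sub_cancel_right]; exact h1
    · rw [e1]; linarith
    · rw [e1]; linarith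
    · rw [e1, show z.re + 1 / 2 - 1 = z.re - 1 / 2 by ring]; exact h4
    · rw [e2]; exact h5

lemma NE_shift (G : ℂ → ℂ) (δ t r : ℝ) : NE (fun z => G (z - 1 / 2)) δ t r =
    ∑ᶠ ρ ∈ Zst G δ t r, (analyticOrderNatAt G ρ : ℝ) := by
  unfold NE
  rw [Est_shift, finsum_mem_image (inj_shift.injOn)]
  refine finsum_congr fun s => finsum_congr fun _ => ?_
  rw [order_shift G s]

lemma nrm_star (q : ZI) : nrm (star q) = nrm q := by
  have h1 := Pool.Agent.W164.RC.norm_tc_star q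
  have h2 := tc_nrm (star q)
  rw [h1, tc_nrm q] at h2
  exact_mod_cast h2.symm

theorem main_dens (hsum : ∀ q : ZI, q ≠ 0 →
      (∑ d ∈ H385.H10.Dv q, nrm d) * phiQ q ≤ 4 * nrm q ^ 2) : ∃ F : ZI → ℂ → ℂ,
    (∀ q : ZI, q ≠ 0 → two2 ∣ q → Differentiable ℂ (F q) ∧
      (∀ (K : Type) [Field K] [NumberField K] (ι : ZI →+* 𝓞 K)
        (art : (RQ q)ˣ →* (𝓞 K ≃+* 𝓞 K)), IsRayClassField q K ι art →
        4 * Nat.card art.range = phiQ q ∧
        ∀ s : ℂ, 3 / 2 < s.re → HasProd (open Classical in fun v : HeightOneSpectrum (𝓞 K) =>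
          if ι q ∈ v.asIdeal then 1 else eulerFactor s v) (F q s)) ∧
      ∀ δ t r : ℝ, (Est (F q) δ t r).Finite) ∧
    (∀ c κ T : ℝ, 0 < c → c < 1 → 0 < κ → 0 ≤ T → ∃ C : ℝ, 0 < C ∧ ∀ q : ZI, q ≠ 0 → two2 ∣ q →
      κ * (nrm q : ℝ) ≤ phiQ q → ∀ δ t : ℝ, 0 ≤ δ → |t| ≤ T →
        NE (F q) δ t (1 / Real.log (nrm q)) ≤ C * (nrm q : ℝ) ^ (1 - c * δ)) ∧
    (∀ κ ε T : ℝ, 0 < κ → 0 < ε → 0 < T → ∃ A : ℝ, 0 < A ∧ ∀ q : ZI, q ≠ 0 → two2 ∣ q →
      κ * (nrm q : ℝ) ≤ phiQ q →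
        NE (F q) (A / Real.log (nrm q)) 0 T ≤ ε * ((nrm q : ℝ) * Real.log (nrm q))) := by
  classical
  obtain ⟨cd, pr, hp, -⟩ := H385.he_main
  have hprim : ∀ q : ZI, q ≠ 0 → ∀ χ ∈ FQs q, cd q χ ∣ q ∧ HC (cd q χ) (pr q χ) ∧
      ∀ a : ZI, IsCoprime a q → pr q χ a = chiZ q χ a :=
    fun q hq χ hχ => hp q hq χ (((H385.fq_finite q hq).2.2 χ).1 hχ)
  obtain ⟨G, hG⟩ : ∃ G : ZI → ℂ → ℂ, ∀ q, G q = fun z => FE pr q z * FE pr (star q) z :=
    ⟨_, fun _ => rfl⟩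
  have hst0 : ∀ q : ZI, q ≠ 0 → star q ≠ 0 := fun q hq h => hq (by rw [← star_star q, h, star_zero])
  have hGd : ∀ q : ZI, q ≠ 0 → Differentiable ℂ (G q) := by
    intro q hq
    rw [hG]
    exact (FE_diff cd pr hprim hq).mul (FE_diff cd pr hprim (hst0 q hq))
  have hGn : ∀ q : ZI, q ≠ 0 → ∃ z, G q z ≠ 0 := by
    intro q hq
    refine ⟨⟨2, 1⟩, ?_⟩
    rw [hG]
    exact mul_ne_zero (FE_nz cd pr hprim hq) (FE_nz cd pr hprim (hst0 q hq))
  have hdens : ∀ c κ T : ℝ, 0 < c → c < 1 → 0 < κ → 0 ≤ T → ∃ C : ℝ, 0 < C ∧ ∀ q : ZI, q ≠ 0 →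
      two2 ∣ q → κ * (nrm q : ℝ) ≤ phiQ q → ∀ δ t : ℝ, 0 ≤ δ → |t| ≤ T →
        ∑ᶠ ρ ∈ Zst (G q) δ t (1 / Real.log (nrm q)), (analyticOrderNatAt (G q) ρ : ℝ) ≤
          C * (nrm q : ℝ) ^ (1 - c * δ) := by
    intro c κ T hc0 hc1 hκ hT
    obtain ⟨C, hC, h⟩ := fam_dens cd pr hprim hsum hc0 hc1 hκ hT
    refine ⟨C + C, by positivity, ?_⟩
    intro q hq h2 hφ δ t hδ ht
    have h1 := (tot_Zst cd pr hprim hq δ t (1 / Real.log (nrm q))).2
    rw [hG, h1, add_mul]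
    have h8 := eight_le_nrm hq h2
    have e1 := h q h8 hφ δ t hδ ht
    have e2 := h (star q) (by rw [nrm_star]; exact h8) (by rw [nrm_star, phiQ_star]; exact hφ) δ t
      hδ ht
    rw [nrm_star] at e2
    exact add_le_add e1 e2
  refine ⟨fun q s => G q (s - 1 / 2), ?_, ?_, ?_⟩
  · intro q hq h2
    refine ⟨(hGd q hq).comp (by fun_prop), ?_, ?_⟩
    · intro K _ _ ι art H
      refine ⟨ray_card hq h2 H, fun s hs => ?_⟩
      have h3 := hasProd_K cd pr hprim hq h2 H hs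
      have h4 : G q (s - 1 / 2) = FE pr q (s - 1 / 2) * FE pr (star q) (s - 1 / 2) := by rw [hG]
      rw [← h4] at h3
      exact h3
    · intro δ t r
      rw [Est_shift]
      exact (fin_zeros (hGd q hq) (hGn q hq) (Zst_bdd _ _ _ _) fun _ hz => hz.1).image _
  · intro c κ T hc0 hc1 hκ hT
    obtain ⟨C, hC, h⟩ := hdens c κ T hc0 hc1 hκ hT
    refine ⟨C, hC, fun q hq h2 hφ δ t hδ ht => ?_⟩
    have := NE_shift (G q) δ t (1 / Real.log (nrm q))
    rw [this]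
    exact h q hq h2 hφ δ t hδ ht
  · intro κ ε T hκ hε hT
    obtain ⟨C, hC, h⟩ := hdens (1 / 2) κ (T + 1) (by norm_num) (by norm_num) hκ (by linarith)
    obtain ⟨E, hE⟩ : ∃ E : ℝ, E = (2 * T + 5) * C := ⟨_, rfl⟩
    have hE0 : 0 < E := by rw [hE]; positivity
    obtain ⟨A, hA⟩ : ∃ A : ℝ, A = 2 * max 1 (Real.log (E / ε)) := ⟨_, rfl⟩
    have hA0 : 0 < A := by
      have := le_max_left 1 (Real.log (E / ε))
      rw [hA]; linarith
    have hAE : E * Real.exp (-(A / 2)) ≤ ε := by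
      have h1 : Real.log (E / ε) ≤ A / 2 := by
        have := le_max_right 1 (Real.log (E / ε))
        rw [hA]; linarith
      have h2 : E / ε ≤ Real.exp (A / 2) := by
        rw [← Real.log_le_iff_le_exp (by positivity)]
        exact h1
      rw [Real.exp_neg, ← div_eq_mul_inv, div_le_iff₀ (Real.exp_pos _)]
      rw [div_le_iff₀ (by positivity)] at h2
      linarith
    refine ⟨A, hA0, ?_⟩
    intro q hq h2 hφ
    have hNE := NE_shift (G q) (A / Real.log (nrm q)) 0 T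
    rw [hNE]
    obtain ⟨N, hN⟩ : ∃ N : ℝ, N = (nrm q : ℝ) := ⟨_, rfl⟩
    have hN8 : (8 : ℝ) ≤ N := by rw [hN]; exact_mod_cast eight_le_nrm hq h2
    have hN0 : 0 < N := by linarith
    have h' := h q hq h2 hφ
    rw [← hN] at h' ⊢
    obtain ⟨L, hL⟩ : ∃ L : ℝ, L = Real.log N := ⟨_, rfl⟩
    rw [← hL] at h' ⊢
    have hL1 : 1 ≤ L := by
      rw [hL, Real.le_log_iff_exp_le hN0]
      have := Real.exp_one_lt_d9
      linarith
    have hL0 : 0 < L := by linarith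
    have hδ : 0 ≤ A / L := by positivity
    have hr : 0 < 1 / L := by positivity
    obtain ⟨J, hJ⟩ : ∃ J : Finset ℤ, J = Finset.Icc (-⌈T / (1 / L)⌉₊ : ℤ) ⌈T / (1 / L)⌉₊ := ⟨_, rfl⟩
    have h1 : ∑ᶠ ρ ∈ Zst (G q) (A / L) 0 T, (analyticOrderNatAt (G q) ρ : ℝ) ≤
        ∑ j ∈ J, ∑ᶠ ρ ∈ Zst (G q) (A / L) ((j : ℝ) * (1 / L)) (1 / L),
          (analyticOrderNatAt (G q) ρ : ℝ) := by
      rw [hJ]
      exact cnt_cover (hGd q hq) (hGn q hq) _ hr
    have hceil : (⌈T / (1 / L)⌉₊ : ℝ) ≤ T * L + 1 := by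
      have h0 := (Nat.ceil_lt_add_one (show 0 ≤ T / (1 / L) by positivity)).le
      have h1' : T / (1 / L) = T * L := by rw [div_div_eq_mul_div, div_one]
      calc (⌈T / (1 / L)⌉₊ : ℝ) ≤ T / (1 / L) + 1 := h0
        _ = T * L + 1 := by rw [h1']
    have hJc : (J.card : ℝ) ≤ (2 * T + 5) * L := by
      rw [hJ, Int.card_Icc]
      have h2 : ((⌈T / (1 / L)⌉₊ : ℤ) + 1 - (-(⌈T / (1 / L)⌉₊ : ℤ))).toNat =
          2 * ⌈T / (1 / L)⌉₊ + 1 := by
        omega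
      rw [h2]
      push_cast
      nlinarith
    have h2 : ∀ j ∈ J, ∑ᶠ ρ ∈ Zst (G q) (A / L) ((j : ℝ) * (1 / L)) (1 / L),
          (analyticOrderNatAt (G q) ρ : ℝ) ≤ C * (N * Real.exp (-(A / 2))) := by
      intro j hj
      have h4 : |(j : ℝ) * (1 / L)| ≤ T + 1 := by
        rw [abs_mul, abs_of_pos hr]
        have h5 : |(j : ℝ)| ≤ T * L + 1 := by
          rw [hJ, Finset.mem_Icc] at hj
          refine le_trans ?_ hceil
          rw [abs_le]
          constructor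
          · have := hj.1
            have h6 : ((-(⌈T / (1 / L)⌉₊ : ℤ) : ℤ) : ℝ) ≤ (j : ℝ) := by exact_mod_cast this
            push_cast at h6
            exact h6
          · have h6 : (j : ℝ) ≤ ((⌈T / (1 / L)⌉₊ : ℤ) : ℝ) := by exact_mod_cast hj.2
            push_cast at h6
            exact h6
        rw [mul_one_div, div_le_iff₀ hL0]
        nlinarith
      refine (h' (A / L) _ hδ h4).trans (le_of_eq ?_)
      congr 1
      rw [sub_eq_add_neg, Real.rpow_add hN0, Real.rpow_one]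
      congr 1
      rw [Real.rpow_def_of_pos hN0, ← hL]
      congr 1
      field_simp
    refine (h1.trans (Finset.sum_le_sum h2)).trans ?_
    rw [Finset.sum_const, nsmul_eq_mul]
    calc (J.card : ℝ) * (C * (N * Real.exp (-(A / 2))))
        ≤ ((2 * T + 5) * L) * (C * (N * Real.exp (-(A / 2)))) := by gcongr
      _ = (E * Real.exp (-(A / 2))) * (N * L) := by rw [hE]; ring
      _ ≤ ε * (N * L) := by gcongr

end Pool.Agent.A856.SE
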