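import Pool.Agent.A856.SE.FamK
import Pool.Agent.A856.SE.Main
import Pool.Agent.Y762.EG.Place

/-!
# The zeros of the L-functions of the powers of the elliptic curve

Owner helper856 (Selberg's density theorem for the powers of an elliptic curve over ray class fields).
-/

set_option autoImplicit false

open NumberField Complex

namespace Pool.Agent.A856.SE

open Pool.Agent.A856.SD (Zst Zst_bdd fin_zeros)
open Pool.Agent.W354.PK (HCk psik LK bK uh_psik goodK)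
open H385 (ZI RQ chiZ phiQ nrm im1)
open H370 (mult)
open Pool.Agent.H82R3.EK (cnt cnt_prod)
open Pool.Agent.W164.RC (Cq Cq_diff Cq_ne order_mul_ne cnt_mul_ne cnt_mul)
open Pool.Agent.W354.HW (mu)
open Pool.Agent.Y762.HK (PrimData)
open Pool.Agent.Y762.EG (FQk mem_FQk FEk FEk_diff fac_props LG LG_diff cnt_eq')

section
variable (cd : (q : ZI) → MulChar (RQ q) ℂ → ZI)
    (pr : (q : ZI) → MulChar (RQ q) ℂ → (ZI →* ℂ))
    (hprim : ∀ q : ZI, q ≠ 0 → ∀ χ, PrimData q χ (cd q χ) (pr q χ))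

include hprim

theorem hck_of {q : ZI} (hq : q ≠ 0) {k : ℕ} : ∀ χ ∈ FQk q k, HCk k (cd q χ) (pr q χ) := by
  intro χ hχ
  rw [mem_FQk hq] at hχ
  exact (hprim q hq χ).hck hq _ hχ

theorem FEk_cntW {q : ZI} (hq : q ≠ 0) {k : ℕ} (hk : 1 ≤ k) (δ t r : ℝ) :
    cnt (FEk pr q k) (Wst δ t r) = ∑ χ ∈ FQk q k, cnt (LK k (pr q χ)) (Wst δ t r) ∧
    (∀ s ∈ Wst δ t r, analyticOrderAt (FEk pr q k) s ≠ ⊤) ∧
    {s : ℂ | s ∈ Wst δ t r ∧ FEk pr q k s = 0}.Finite := by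
  classical
  obtain ⟨W, hW⟩ : ∃ W : Set ℂ, W = Wst δ t r := ⟨_, rfl⟩
  rw [← hW]
  have hp := fac_props cd pr hprim hq hk (le_refl (1 : ℝ))
  have hre : ∀ s ∈ W, 0 < s.re := fun s hs => by rw [hW] at hs; exact hs.1
  have hC : ∀ χ ∈ FQk q k, ∀ s ∈ W, Cq q (psik k (pr q χ)) s ≠ 0 := fun χ hχ s hs =>
    (hp χ hχ).2.2.2 s (hre s hs)
  have han : ∀ χ ∈ FQk q k, ∀ s ∈ W,
      AnalyticAt ℂ (fun z => LK k (pr q χ) z * Cq q (psik k (pr q χ)) z) s :=
    fun χ hχ s _ => ((hp χ hχ).1 s).mul ((Cq_diff q _).analyticAt s)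
  have hord : ∀ χ ∈ FQk q k, ∀ s ∈ W,
      analyticOrderAt (fun z => LK k (pr q χ) z * Cq q (psik k (pr q χ)) z) s ≠ ⊤ := by
    intro χ hχ s hs
    rw [order_mul_ne ((hp χ hχ).1 s) ((Cq_diff q _).analyticAt s) (hC χ hχ s hs)]
    exact (hp χ hχ).2.1 s
  have hset : ∀ χ ∈ FQk q k,
      {s : ℂ | s ∈ W ∧ LK k (pr q χ) s * Cq q (psik k (pr q χ)) s = 0}.Finite := by
    intro χ hχ
    refine (Zst_finK hk (hck_of cd pr hprim hq χ hχ) δ t r).subset ?_
    rintro s ⟨h1, h2⟩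
    have h3 := (mul_eq_zero.1 h2).resolve_right (hC χ hχ s h1)
    rw [Zst_eq, ← hW]
    exact ⟨h1, h3⟩
  refine ⟨?_, ?_, ?_⟩
  · have h := cnt_prod (FQk q k) (fun χ z => LK k (pr q χ) z * Cq q (psik k (pr q χ)) z) han hord hset
    have h0 : FEk pr q k = fun s => ∏ χ ∈ FQk q k, (LK k (pr q χ) s * Cq q (psik k (pr q χ)) s) := rfl
    rw [h0, h]
    refine Finset.sum_congr rfl fun χ hχ => ?_
    exact cnt_mul_ne (fun s _ => (hp χ hχ).1 s) (fun s _ => (Cq_diff q _).analyticAt s) (hC χ hχ)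
  · intro s hs
    have h := Pool.Agent.H82R3.EK.mult_prod (FQk q k)
      (fun χ z => LK k (pr q χ) z * Cq q (psik k (pr q χ)) z) (s := s)
      (fun χ hχ => han χ hχ s hs) (fun χ hχ => hord χ hχ s hs)
    exact h.2.1
  · have hunion : (⋃ χ ∈ FQk q k,
        {s : ℂ | s ∈ W ∧ LK k (pr q χ) s * Cq q (psik k (pr q χ)) s = 0}).Finite :=
      Set.Finite.biUnion (FQk q k).finite_toSet hset
    refine hunion.subset ?_
    rintro s ⟨h1, h2⟩
    unfold FEk at h2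
    rw [Finset.prod_eq_zero_iff] at h2
    obtain ⟨χ, hχ, h3⟩ := h2
    exact Set.mem_biUnion hχ ⟨h1, h3⟩

/-- both moduli -/
theorem pair_cntW {q : ZI} (hq : q ≠ 0) {k : ℕ} (hk : 1 ≤ k) (δ t r : ℝ) :
    cnt (fun s => FEk pr q k s * FEk pr (star q) k s) (Wst δ t r) =
      ∑ χ ∈ FQk q k, cnt (LK k (pr q χ)) (Wst δ t r) +
      ∑ χ ∈ FQk (star q) k, cnt (LK k (pr (star q) χ)) (Wst δ t r) ∧
    (∀ s ∈ Wst δ t r, analyticOrderAt (fun s => FEk pr q k s * FEk pr (star q) k s) s ≠ ⊤) ∧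
    {s : ℂ | s ∈ Wst δ t r ∧ FEk pr q k s * FEk pr (star q) k s = 0}.Finite := by
  have hq' : star q ≠ 0 := fun h => hq (by rw [← star_star q, h, star_zero])
  have hd1 := FEk_diff cd pr hprim hq hk
  have hd2 := FEk_diff cd pr hprim hq' hk
  obtain ⟨a1, a2, a3⟩ := FEk_cntW cd pr hprim hq hk δ t r
  obtain ⟨b1, b2, b3⟩ := FEk_cntW cd pr hprim hq' hk δ t r
  refine ⟨?_, ?_, ?_⟩
  · rw [cnt_mul (fun s _ => hd1.analyticAt s) (fun s _ => hd2.analyticAt s) a2 b2 a3 b3, a1, b1]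
  · intro s hs
    have h1 : analyticOrderAt (FEk pr q k * FEk pr (star q) k) s =
        analyticOrderAt (FEk pr q k) s + analyticOrderAt (FEk pr (star q) k) s :=
      analyticOrderAt_mul (hd1.analyticAt s) (hd2.analyticAt s)
    have h2 : (fun s => FEk pr q k s * FEk pr (star q) k s) = FEk pr q k * FEk pr (star q) k := rfl
    rw [h2, h1]
    exact WithTop.add_ne_top.mpr ⟨a2 s hs, b2 s hs⟩
  · refine (a3.union b3).subset ?_
    rintro s ⟨h1, h2⟩
    rcases mul_eq_zero.1 h2 with h | h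
    · exact Or.inl ⟨h1, h⟩
    · exact Or.inr ⟨h1, h⟩

/-- the zeros of the product of all the L-functions -/
theorem LG_Zst {q : ZI} (hq : q ≠ 0) (g m : ℕ) (δ t r : ℝ) :
    (Zst (LG pr q g m) δ t r).Finite ∧
    ∑ᶠ ρ ∈ Zst (LG pr q g m) δ t r, (analyticOrderNatAt (LG pr q g m) ρ : ℝ) =
      ∑ l ∈ Finset.range (m + 1), (mu g m l : ℝ) *
        (∑ χ ∈ FQk q (2 * l + 1), nzK (2 * l + 1) (pr q χ) δ t r +
          ∑ χ ∈ FQk (star q) (2 * l + 1), nzK (2 * l + 1) (pr (star q) χ) δ t r) := by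
  have hq' : star q ≠ 0 := fun h => hq (by rw [← star_star q, h, star_zero])
  have h1 : ∀ l : ℕ, _ := fun l => pair_cntW cd pr hprim hq (k := 2 * l + 1) (by omega) δ t r
  have hfin : (Zst (LG pr q g m) δ t r).Finite := by
    rw [Zst_eq]
    exact Pool.Agent.W354.HW.zeros_prod_finite (Finset.range (m + 1))
      (fun l s => FEk pr q (2 * l + 1) s * FEk pr (star q) (2 * l + 1) s) (mu g m)
      (fun l _ => (h1 l).2.2)
  refine ⟨hfin, ?_⟩
  rw [cnt_Wst hfin]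
  have h := Pool.Agent.W354.HW.cnt_prod (Finset.range (m + 1))
    (fun l s => FEk pr q (2 * l + 1) s * FEk pr (star q) (2 * l + 1) s) (mu g m) (W := Wst δ t r)
    (fun l _ s _ => ((FEk_diff cd pr hprim hq (by omega)).analyticAt s).mul
      ((FEk_diff cd pr hprim hq' (by omega)).analyticAt s))
    (fun l _ => (h1 l).2.1) (fun l _ => (h1 l).2.2)
  have h2 : LG pr q g m = fun z => ∏ l ∈ Finset.range (m + 1),
    (FEk pr q (2 * l + 1) z * FEk pr (star q) (2 * l + 1) z) ^ mu g m l := rfl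
  rw [h2, ← cnt_eq', h]
  push_cast
  refine Finset.sum_congr rfl fun l _ => ?_
  congr 1
  rw [cnt_eq', (h1 l).1]
  push_cast
  congr 1
  · refine Finset.sum_congr rfl fun χ hχ => ?_
    exact (cnt_Wst (Zst_finK (by omega) (hck_of cd pr hprim hq χ hχ) δ t r)).symm
  · refine Finset.sum_congr rfl fun χ hχ => ?_
    exact (cnt_Wst (Zst_finK (by omega) (hck_of cd pr hprim hq' χ hχ) δ t r)).symm

theorem LG_nz {q : ZI} (hq : q ≠ 0) (g m : ℕ) : LG pr q g m ⟨2, 1⟩ ≠ 0 := by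
  have hq' : star q ≠ 0 := fun h => hq (by rw [← star_star q, h, star_zero])
  obtain ⟨A, -, hgood⟩ := goodK
  have h1 : ∀ q : ZI, q ≠ 0 → ∀ l : ℕ, FEk pr q (2 * l + 1) ⟨2, 1⟩ ≠ 0 := by
    intro q hq l
    unfold FEk
    rw [Finset.prod_ne_zero_iff]
    intro χ hχ
    have hH := hck_of cd pr hprim hq χ hχ
    exact mul_ne_zero ((hgood _ _ _ (by omega) hH).2.2.2.nzr _ (by norm_num) (by norm_num))
      (Cq_ne q (uh_psik hH) (by norm_num))
  unfold LG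
  rw [Finset.prod_ne_zero_iff]
  intro l _
  exact pow_ne_zero _ (mul_ne_zero (h1 q hq l) (h1 _ hq' l))

end

end Pool.Agent.A856.SE
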