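import Pool.Agent.A856.SE.TotK
import Pool.Agent.A856.SE.Sig

/-!
# The density theorem for the powers of the elliptic curve

Owner helper856 (Selberg's density theorem for the powers of an elliptic curve over ray class fields).
-/

set_option autoImplicit false

open NumberField Complex

namespace Pool.Agent.A856.SE

open Pool.Agent.A856.SD (Zst Zst_bdd fin_zeros cnt_cover)
open Pool.Agent.W354.PK (HCk psik LK bK uh_psik goodK)
open H385 (ZI RQ chiZ phiQ nrm im1)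
open Pool.Agent.W354.HW (mu)
open Pool.Agent.Y762.HK (PrimData)
open Pool.Agent.Y762.EG (FQk mem_FQk LG LG_diff)
open Pool.Agent.W164.RC (two2 eight_le_nrm phiQ_star)

/-- from the windows of length `1 / log N` to the zeros of height at most `T` -/
theorem near_gen {G : ℂ → ℂ} (hG : Differentiable ℂ G) (hnz : ∃ z, G z ≠ 0) {C N T ε E A : ℝ}
    (hN8 : 8 ≤ N) (hC : 0 < C) (hT : 0 < T) (hA0 : 0 < A) (hE : E = (2 * T + 5) * C)
    (hAE : E * Real.exp (-(A / 2)) ≤ ε)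
    (h' : ∀ δ t : ℝ, 0 ≤ δ → |t| ≤ T + 1 →
      ∑ᶠ ρ ∈ Zst G δ t (1 / Real.log N), (analyticOrderNatAt G ρ : ℝ) ≤ C * N ^ (1 - 1 / 2 * δ)) :
    ∑ᶠ ρ ∈ Zst G (A / Real.log N) 0 T, (analyticOrderNatAt G ρ : ℝ) ≤ ε * (N * Real.log N) := by
  have hN0 : 0 < N := by linarith
  obtain ⟨L, hL⟩ : ∃ L : ℝ, L = Real.log N := ⟨_, rfl⟩
  rw [← hL] at h' ⊢
  have hL1 : 1 ≤ L := by
    rw [hL, Real.le_log_iff_exp_le hN0]
    have := Real.exp_one_lt_d9
    linarith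
  have hL0 : 0 < L := by linarith
  have hδ : 0 ≤ A / L := by positivity
  have hr : 0 < 1 / L := by positivity
  obtain ⟨J, hJ⟩ : ∃ J : Finset ℤ, J = Finset.Icc (-⌈T / (1 / L)⌉₊ : ℤ) ⌈T / (1 / L)⌉₊ := ⟨_, rfl⟩
  have h1 : ∑ᶠ ρ ∈ Zst G (A / L) 0 T, (analyticOrderNatAt G ρ : ℝ) ≤
      ∑ j ∈ J, ∑ᶠ ρ ∈ Zst G (A / L) ((j : ℝ) * (1 / L)) (1 / L),
        (analyticOrderNatAt G ρ : ℝ) := by
    rw [hJ]
    exact cnt_cover hG hnz _ hr
  have hceil : (⌈T / (1 / L)⌉₊ : ℝ) ≤ T * L + 1 := by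
    have h0 := (Nat.ceil_lt_add_one (show 0 ≤ T / (1 / L) by positivity)).le
    have h1' : T / (1 / L) = T * L := by rw [div_div_eq_mul_div, div_one]
    calc (⌈T / (1 / L)⌉₊ : ℝ) ≤ T / (1 / L) + 1 := h0
      _ = T * L + 1 := by rw [h1']
  have hJc : (J.card : ℝ) ≤ (2 * T + 5) * L := by
    rw [hJ, Int.card_Icc]
    have h2 : ((⌈T / (1 / L)⌉₊ : ℤ) + 1 - (-(⌈T / (1 / L)⌉₊ : ℤ))).toNat =
        2 * ⌈T / (1 / L)⌉₊ + 1 := by
      omega
    rw [h2]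
    push_cast
    nlinarith
  have h2 : ∀ j ∈ J, ∑ᶠ ρ ∈ Zst G (A / L) ((j : ℝ) * (1 / L)) (1 / L),
        (analyticOrderNatAt G ρ : ℝ) ≤ C * (N * Real.exp (-(A / 2))) := by
    intro j hj
    have h4 : |(j : ℝ) * (1 / L)| ≤ T + 1 := by
      rw [abs_mul, abs_of_pos hr]
      have h5 : |(j : ℝ)| ≤ T * L + 1 := by
        rw [hJ, Finset.mem_Icc] at hj
        refine le_trans ?_ hceil
        rw [abs_le]
        constructor
        · have := hj.1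
          have h6 : ((-(⌈T / (1 / L)⌉₊ : ℤ) : ℤ) : ℝ) ≤ (j : ℝ) := by exact_mod_cast this
          push_cast at h6
          exact h6
        · have h6 : (j : ℝ) ≤ ((⌈T / (1 / L)⌉₊ : ℤ) : ℝ) := by exact_mod_cast hj.2
          push_cast at h6
          exact h6
      rw [mul_one_div, div_le_iff₀ hL0]
      nlinarith
    refine (h' (A / L) _ hδ h4).trans (le_of_eq ?_)
    congr 1
    rw [sub_eq_add_neg, Real.rpow_add hN0, Real.rpow_one]
    congr 1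
    rw [Real.rpow_def_of_pos hN0, ← hL]
    congr 1
    field_simp
  refine (h1.trans (Finset.sum_le_sum h2)).trans ?_
  rw [Finset.sum_const, nsmul_eq_mul]
  calc (J.card : ℝ) * (C * (N * Real.exp (-(A / 2))))
      ≤ ((2 * T + 5) * L) * (C * (N * Real.exp (-(A / 2)))) := by gcongr
    _ = (E * Real.exp (-(A / 2))) * (N * L) := by rw [hE]; ring
    _ ≤ ε * (N * L) := by gcongr


section
variable (cd : (q : ZI) → MulChar (RQ q) ℂ → ZI)
    (pr : (q : ZI) → MulChar (RQ q) ℂ → (ZI →* ℂ))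
    (hprim : ∀ q : ZI, q ≠ 0 → ∀ χ, PrimData q χ (cd q χ) (pr q χ))

include hprim

theorem LG_dens (g m : ℕ) {c κ T : ℝ} (hc0 : 0 < c) (hc1 : c < 1) (hκ : 0 < κ) (hT : 0 ≤ T) :
    ∃ C : ℝ, 0 < C ∧ ∀ q : ZI, q ≠ 0 → two2 ∣ q → κ * (nrm q : ℝ) ≤ phiQ q → ∀ δ t : ℝ, 0 ≤ δ →
      |t| ≤ T → ∑ᶠ ρ ∈ Zst (LG pr q g m) δ t (1 / Real.log (nrm q)),
        (analyticOrderNatAt (LG pr q g m) ρ : ℝ) ≤ C * (nrm q : ℝ) ^ (1 - c * δ) := by
  have h1 := fun l : ℕ => fam_densK cd pr hprim l sum_Dv hc0 hc1 hκ hT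
  choose C hC h using h1
  refine ⟨∑ l ∈ Finset.range (m + 1), (mu g m l : ℝ) * (C l + C l) + 1, ?_, ?_⟩
  · have : 0 ≤ ∑ l ∈ Finset.range (m + 1), (mu g m l : ℝ) * (C l + C l) :=
      Finset.sum_nonneg fun l _ => mul_nonneg (Nat.cast_nonneg _) (by linarith [hC l])
    linarith
  · intro q hq h2 hφ δ t hδ ht
    have hN8 := eight_le_nrm hq h2
    have hN0 : (0 : ℝ) ≤ (nrm q : ℝ) ^ (1 - c * δ) := Real.rpow_nonneg (Nat.cast_nonneg _) _
    rw [(LG_Zst cd pr hprim hq g m δ t _).2, add_mul, one_mul, Finset.sum_mul]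
    refine le_trans (Finset.sum_le_sum fun l _ => ?_) (le_add_of_nonneg_right hN0)
    rw [mul_assoc]
    refine mul_le_mul_of_nonneg_left ?_ (Nat.cast_nonneg _)
    rw [add_mul]
    have e1 := h l q hN8 hφ δ t hδ ht
    have e2 := h l (star q) (by rw [nrm_star]; exact hN8) (by rw [nrm_star, phiQ_star]; exact hφ)
      δ t hδ ht
    rw [nrm_star] at e2
    exact add_le_add e1 e2

theorem LG_near (g m : ℕ) {κ ε T : ℝ} (hκ : 0 < κ) (hε : 0 < ε) (hT : 0 < T) :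
    ∃ A : ℝ, 0 < A ∧ ∀ q : ZI, q ≠ 0 → two2 ∣ q → κ * (nrm q : ℝ) ≤ phiQ q →
      ∑ᶠ ρ ∈ Zst (LG pr q g m) (A / Real.log (nrm q)) 0 T,
        (analyticOrderNatAt (LG pr q g m) ρ : ℝ) ≤ ε * ((nrm q : ℝ) * Real.log (nrm q)) := by
  obtain ⟨C, hC, h⟩ := LG_dens cd pr hprim g m (c := 1 / 2) (κ := κ) (T := T + 1) (by norm_num)
    (by norm_num) hκ (by linarith)
  obtain ⟨E, hE⟩ : ∃ E : ℝ, E = (2 * T + 5) * C := ⟨_, rfl⟩
  have hE0 : 0 < E := by rw [hE]; positivity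
  obtain ⟨A, hA⟩ : ∃ A : ℝ, A = 2 * max 1 (Real.log (E / ε)) := ⟨_, rfl⟩
  have hA0 : 0 < A := by
    have := le_max_left 1 (Real.log (E / ε))
    rw [hA]; linarith
  have hAE : E * Real.exp (-(A / 2)) ≤ ε := by
    have h1 : Real.log (E / ε) ≤ A / 2 := by
      have := le_max_right 1 (Real.log (E / ε))
      rw [hA]; linarith
    have h2 : E / ε ≤ Real.exp (A / 2) := by
      rw [← Real.log_le_iff_le_exp (by positivity)]
      exact h1
    rw [Real.exp_neg, ← div_eq_mul_inv, div_le_iff₀ (Real.exp_pos _)]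
    rw [div_le_iff₀ (by positivity)] at h2
    linarith
  refine ⟨A, hA0, fun q hq h2 hφ => ?_⟩
  have hN8 : (8 : ℝ) ≤ (nrm q : ℝ) := by exact_mod_cast eight_le_nrm hq h2
  exact near_gen (LG_diff cd pr hprim hq g m) ⟨_, LG_nz cd pr hprim hq g m⟩ hN8 hC hT hA0 hE hAE
    (h q hq h2 hφ)

end

end Pool.Agent.A856.SE
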