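import Pool.Agent.A856.SD.Dat
import Pool.Agent.R432.Q0
import Pool.Agent.H304R3.HK.Defs

/-!
# Hecke characters of infinity type one of `ℚ(i)` as functions on the ideals

Owner helper856 (Selberg's density theorem for elliptic curves over ray class fields).
-/

set_option autoImplicit false

open NumberField Complex

namespace Pool.Agent.A856.SE

open Pool.Agent.H304R3.HK (tc HC UH psi LH bH bb CS)

/-- the field `ℚ(i)` -/
abbrev K0 : Type := FractionRing GaussianInt

noncomputable instance : NumberField K0 := Pool.Agent.R432.Q.k_num (k := K0)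

/-- its ring of integers is `ℤ[i]` -/
noncomputable def e0 : GaussianInt ≃+* 𝓞 K0 := (Pool.Agent.R432.Q.exists_e0 K0).choose

/-- `ψ` is the function `h` of the generators of the ideals -/
def OnId (h : GaussianInt →* ℂ) (ψ : Ideal (𝓞 K0) →*₀ ℂ) : Prop :=
  ∀ a : GaussianInt, ψ (Ideal.span {e0 a}) = h a

end Pool.Agent.A856.SE
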