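import Pool.Agent.A856.SE.Defs
import Pool.Agent.H304R3.HK.Fin
import Pool.Agent.H304R3.HK.BbSh


set_option autoImplicit false

open NumberField Complex

namespace Pool.Agent.A856.SE

open Pool.Agent.H304R3.HK (tc HC UH psi LH bH bb CS)
open Pool.Agent.Y773 (LI)

namespace OnIdAux

/-- the coordinates `(re, im)` -/
def giE : GaussianInt ≃ₗ[ℤ] (Fin 2 → ℤ) where
  toFun a := ![a.re, a.im]
  map_add' a b := by
    ext i; fin_cases i <;> simp
  map_smul' c a := by
    ext i; fin_cases i <;> simp [zsmul_eq_mul]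
  invFun v := ⟨v 0, v 1⟩
  left_inv a := by simp
  right_inv v := by ext i; fin_cases i <;> simp

noncomputable def giB : Module.Basis (Fin 2) ℤ GaussianInt := Module.Basis.ofEquivFun giE

theorem giB_repr (a : GaussianInt) (i : Fin 2) : giB.repr a i = giE a i := by
  rw [← Module.Basis.equivFun_apply, giB, Module.Basis.equivFun_ofEquivFun]

theorem giB0 : giB 0 = 1 := by
  have : giB 0 = giE.symm (Pi.single 0 1) := by
    rw [giB, Module.Basis.coe_ofEquivFun]
  rw [this]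
  rfl

theorem giB1 : giB 1 = ⟨0, 1⟩ := by
  have : giB 1 = giE.symm (Pi.single 1 1) := by
    rw [giB, Module.Basis.coe_ofEquivFun]
  rw [this]
  rfl

theorem norm_gi (a : GaussianInt) : Algebra.norm ℤ a = Zsqrtd.norm a := by
  rw [Algebra.norm_eq_matrix_det giB a, Matrix.det_fin_two]
  simp only [Algebra.leftMulMatrix_eq_repr_mul, giB_repr, giB0, giB1, giE]
  simp [Zsqrtd.norm_def]

theorem norm_e0_int (a : GaussianInt) : Algebra.norm ℤ (e0 a) = Zsqrtd.norm a := by
  rw [← norm_gi]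
  exact Algebra.norm_eq_of_algEquiv e0.toIntAlgEquiv a

theorem absNorm_e0 (a : GaussianInt) :
    Ideal.absNorm (Ideal.span {e0 a}) = (Zsqrtd.norm a).natAbs := by
  rw [Ideal.absNorm_span_singleton, norm_e0_int]

theorem absNorm_eq_iff (a : GaussianInt) (n : ℕ) :
    Ideal.absNorm (Ideal.span {e0 a}) = n ↔ Zsqrtd.norm a = n := by
  rw [absNorm_e0]
  have := GaussianInt.norm_nonneg a
  omega

instance pir : IsPrincipalIdealRing (𝓞 K0) :=
  IsPrincipalIdealRing.of_surjective (e0 : GaussianInt →+* 𝓞 K0) e0.surjective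

theorem ex_gen (𝔞 : Ideal (𝓞 K0)) : ∃ a : GaussianInt, 𝔞 = Ideal.span {e0 a} := by
  obtain ⟨g, hg⟩ := (pir.principal 𝔞).principal
  refine ⟨e0.symm g, ?_⟩
  rw [RingEquiv.apply_symm_apply, hg]

/-- the units -/
theorem unit_cases {u : GaussianInt} (hu : IsUnit u) :
    u = 1 ∨ u = ⟨0, 1⟩ ∨ u = -1 ∨ u = ⟨0, -1⟩ := by
  have h1 : u.norm = 1 := by
    have h2 := Zsqrtd.norm_eq_one_iff.mpr hu
    have := GaussianInt.norm_nonneg u
    omega
  rw [Zsqrtd.norm_def] at h1
  have h3 : u.re * u.re + u.im * u.im = 1 := by linarith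
  have b1 : u.re ≤ 1 := by nlinarith
  have b2 : -1 ≤ u.re := by nlinarith
  have b3 : u.im ≤ 1 := by nlinarith
  have b4 : -1 ≤ u.im := by nlinarith
  obtain ⟨x, y⟩ := u
  simp only at h3 b1 b2 b3 b4
  interval_cases x <;> interval_cases y <;> simp_all [Zsqrtd.ext_iff]

theorem assoc_of_span {a b : GaussianInt} (h : Ideal.span {e0 a} = Ideal.span {e0 b}) :
    Associated a b := by
  rw [Ideal.span_singleton_eq_span_singleton] at h
  have := h.map (e0.symm : 𝓞 K0 →* GaussianInt)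
  simpa using this

theorem span_of_assoc {a b : GaussianInt} (h : Associated a b) :
    Ideal.span {e0 a} = Ideal.span {e0 b} := by
  rw [Ideal.span_singleton_eq_span_singleton]
  exact h.map (e0 : GaussianInt →* 𝓞 K0)

variable {h : GaussianInt →* ℂ}

theorem h_unit (H : UH h) {u : GaussianInt} (hu : IsUnit u) : h u = 1 := by
  have hi := H.hi
  have hm1 : h (-1) = 1 := by
    have : (-1 : GaussianInt) = ⟨0, 1⟩ * ⟨0, 1⟩ := by
      ext <;> simp
    rw [this, map_mul, hi, one_mul]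
  rcases unit_cases hu with rfl | rfl | rfl | rfl
  · exact map_one h
  · exact hi
  · exact hm1
  · have : (⟨0, -1⟩ : GaussianInt) = -1 * ⟨0, 1⟩ := by
      ext <;> simp
    rw [this, map_mul, hi, hm1, one_mul]

theorem h_assoc (H : UH h) {a b : GaussianInt} (hab : Associated a b) : h a = h b := by
  obtain ⟨u, rfl⟩ := hab
  rw [map_mul, h_unit H u.isUnit, mul_one]

end OnIdAux

open OnIdAux

theorem norm_e0 (a : GaussianInt) :
    (Ideal.absNorm (Ideal.span {e0 a}) : ℝ) = (Zsqrtd.norm a : ℝ) := by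
  rw [absNorm_e0]
  have := GaussianInt.norm_nonneg a
  have h2 : ((Zsqrtd.norm a).natAbs : ℤ) = Zsqrtd.norm a := Int.natAbs_of_nonneg this
  calc (((Zsqrtd.norm a).natAbs : ℕ) : ℝ) = (((Zsqrtd.norm a).natAbs : ℤ) : ℝ) :=
        (Int.cast_natCast _).symm
    _ = _ := by rw [h2]

theorem exists_onId {h : GaussianInt →* ℂ} (H : UH h) :
    ∃ ψ : Ideal (𝓞 K0) →*₀ ℂ, OnId h ψ ∧ ∀ 𝔞, ‖ψ 𝔞‖ ≤ 1 := by
  classical
  let g : Ideal (𝓞 K0) → GaussianInt := fun 𝔞 => (ex_gen 𝔞).choose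
  have hg : ∀ 𝔞, 𝔞 = Ideal.span {e0 (g 𝔞)} := fun 𝔞 => (ex_gen 𝔞).choose_spec
  have key : ∀ a, h (g (Ideal.span {e0 a})) = h a := fun a =>
    h_assoc H (assoc_of_span (hg (Ideal.span {e0 a})).symm)
  refine ⟨{ toFun := fun 𝔞 => h (g 𝔞)
            map_zero' := ?_
            map_one' := ?_
            map_mul' := ?_ }, ?_, ?_⟩
  · have : (0 : Ideal (𝓞 K0)) = Ideal.span {e0 0} := by simp
    rw [this, key, H.h0]
  · have : (1 : Ideal (𝓞 K0)) = Ideal.span {e0 1} := by simp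
    show h (g 1) = 1
    rw [this, key, map_one]
  · intro 𝔞 𝔟
    show h (g (𝔞 * 𝔟)) = h (g 𝔞) * h (g 𝔟)
    have : 𝔞 * 𝔟 = Ideal.span {e0 (g 𝔞 * g 𝔟)} := by
      conv_lhs => rw [hg 𝔞, hg 𝔟]
      rw [Ideal.span_singleton_mul_span_singleton, map_mul]
    rw [this, key, map_mul]
  · intro a
    exact key a
  · intro 𝔞
    exact H.hb _

theorem onId_inj {h : GaussianInt →* ℂ} {ψ ψ' : Ideal (𝓞 K0) →*₀ ℂ} (H : OnId h ψ)
    (H' : OnId h ψ') : ψ = ψ' := by
  ext 𝔞
  obtain ⟨a, rfl⟩ := ex_gen 𝔞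
  rw [H a, H' a]

namespace OnIdAux

open Pool.Agent.H304R3.HK.M1 (CG mem_CG)

theorem fib_card {a : GaussianInt} (ha : a ≠ 0) (n : ℕ) (hn : a.norm = n) :
    open Classical in
    ((CG n).filter (fun z => Ideal.span {e0 z} = Ideal.span {e0 a})).card = 4 := by
  classical
  have h1 : (CG n).filter (fun z => Ideal.span {e0 z} = Ideal.span {e0 a}) =
      ({a, ⟨0, 1⟩ * a, -1 * a, ⟨0, -1⟩ * a} : Finset GaussianInt) := by
    ext z
    simp only [Finset.mem_filter, mem_CG, Finset.mem_insert, Finset.mem_singleton]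
    constructor
    · rintro ⟨_, h⟩
      obtain ⟨u, hu⟩ := (assoc_of_span h).symm
      rw [mul_comm] at hu
      rcases unit_cases u.isUnit with h | h | h | h
      · left; rw [← hu, h, one_mul]
      · right; left; rw [← hu, h]
      · right; right; left; rw [← hu, h]
      · right; right; right; rw [← hu, h]
    · have key : ∀ u : GaussianInt, IsUnit u → (u * a).norm = n ∧
          Ideal.span {e0 (u * a)} = Ideal.span {e0 a} := by
        intro u hu
        have h2 : Ideal.span {e0 (u * a)} = Ideal.span {e0 a} := by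
          apply span_of_assoc
          exact (associated_isUnit_mul_left_iff hu).mpr (Associated.refl a)
        refine ⟨?_, h2⟩
        rw [← absNorm_eq_iff, h2, absNorm_eq_iff, hn]
      have hI : IsUnit (⟨0, 1⟩ : GaussianInt) := by
        rw [← Zsqrtd.norm_eq_one_iff]; rfl
      have hI' : IsUnit (⟨0, -1⟩ : GaussianInt) := by
        rw [← Zsqrtd.norm_eq_one_iff]; rfl
      rintro (rfl | rfl | rfl | rfl)
      · exact ⟨hn, rfl⟩
      · exact key _ hI
      · exact key _ isUnit_one.neg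
      · exact key _ hI'
  rw [h1]
  have hne : ∀ u v : GaussianInt, u ≠ v → u * a ≠ v * a := fun u v huv h =>
    huv (mul_right_cancel₀ ha h)
  have e1 : a = 1 * a := (one_mul a).symm
  rw [Finset.card_insert_of_notMem, Finset.card_insert_of_notMem, Finset.card_insert_of_notMem,
    Finset.card_singleton]
  · simp only [Finset.mem_singleton]
    exact hne _ _ (by decide)
  · simp only [Finset.mem_insert, Finset.mem_singleton, not_or]
    exact ⟨hne _ _ (by decide), hne _ _ (by decide)⟩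
  · simp only [Finset.mem_insert, Finset.mem_singleton, not_or]
    refine ⟨?_, ?_, ?_⟩ <;> (nth_rewrite 1 [e1]; exact hne _ _ (by decide))

end OnIdAux

theorem onId_LI {h : GaussianInt →* ℂ} (H : UH h) {ψ : Ideal (𝓞 K0) →*₀ ℂ} (hψ : OnId h ψ) {s : ℂ}
    (hs : 1 < s.re) : HasSum (fun n : ℕ => bb h n * (n : ℂ) ^ (-s)) (LI ψ s) := by
  classical
  have hb : ∀ 𝔞, ‖ψ 𝔞‖ ≤ 1 := by
    intro 𝔞
    obtain ⟨a, rfl⟩ := ex_gen 𝔞
    rw [hψ a]
    exact H.hb a
  have hsum := Pool.Agent.A856.ZD.summable_LI' hb hs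
  have h1 : HasSum (fun 𝔞 : Ideal (𝓞 K0) => ψ 𝔞 * ((Ideal.absNorm 𝔞 : ℕ) : ℂ) ^ (-s)) (LI ψ s) :=
    hsum.of_norm.hasSum
  have h2 := (Equiv.sigmaFiberEquiv (fun 𝔞 : Ideal (𝓞 K0) => Ideal.absNorm 𝔞)).hasSum_iff.mpr h1
  have h3 : HasSum (fun n : ℕ => ∑' 𝔞 : {𝔞 : Ideal (𝓞 K0) // Ideal.absNorm 𝔞 = n},
      ψ 𝔞.1 * ((Ideal.absNorm 𝔞.1 : ℕ) : ℂ) ^ (-s)) (LI ψ s) := by
    refine h2.sigma (fun n => ?_)
    have := h2.summable.sigma_factor n
    exact this.hasSum
  convert h3 using 1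
  ext n
  rcases Nat.eq_zero_or_pos n with rfl | hn
  · rw [Pool.Agent.H304R3.HK.bb_zero h H.h0, zero_mul]
    symm
    convert tsum_zero with 𝔞
    have : 𝔞.1 = ⊥ := Ideal.absNorm_eq_zero_iff.mp 𝔞.2
    rw [this]
    have : ψ ⊥ = 0 := map_zero ψ
    rw [this, zero_mul]
  · have hfin : Finite {𝔞 : Ideal (𝓞 K0) // Ideal.absNorm 𝔞 = n} :=
      (Ideal.finite_setOfPred_absNorm_eq (S := 𝓞 K0) n).to_subtype
    have := Fintype.ofFinite {𝔞 : Ideal (𝓞 K0) // Ideal.absNorm 𝔞 = n}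
    rw [tsum_fintype]
    rw [Pool.Agent.H304R3.HK.M1.bb_eq]
    have h4 : ∑ z ∈ Pool.Agent.H304R3.HK.M1.CG n, h z =
        ∑ 𝔞 : {𝔞 : Ideal (𝓞 K0) // Ideal.absNorm 𝔞 = n}, 4 * ψ 𝔞.1 := by
      have h5 : ∀ z ∈ Pool.Agent.H304R3.HK.M1.CG n, Ideal.absNorm (Ideal.span {e0 z}) = n := by
        intro z hz
        rw [absNorm_eq_iff]
        exact Pool.Agent.H304R3.HK.M1.mem_CG.mp hz
      let F : GaussianInt → {𝔞 : Ideal (𝓞 K0) // Ideal.absNorm 𝔞 = n} → Prop :=
        fun z 𝔞 => Ideal.span {e0 z} = 𝔞.1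
      have h6 : ∀ z ∈ Pool.Agent.H304R3.HK.M1.CG n, h z =
          ∑ 𝔞 : {𝔞 : Ideal (𝓞 K0) // Ideal.absNorm 𝔞 = n}, if F z 𝔞 then h z else 0 := by
        intro z hz
        rw [Finset.sum_eq_single_of_mem (⟨Ideal.span {e0 z}, h5 z hz⟩ :
          {𝔞 : Ideal (𝓞 K0) // Ideal.absNorm 𝔞 = n}) (Finset.mem_univ _)]
        · rw [if_pos rfl]
        · intro 𝔟 _ hne
          rw [if_neg]
          intro hF
          apply hne
          ext1
          exact hF.symm
      rw [Finset.sum_congr rfl h6, Finset.sum_comm]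
      refine Finset.sum_congr rfl fun 𝔞 _ => ?_
      obtain ⟨a, ha⟩ := ex_gen 𝔞.1
      have hna : Ideal.absNorm (Ideal.span {e0 a}) = n := by rw [← ha]; exact 𝔞.2
      have hna' := (absNorm_eq_iff a n).mp hna
      have ha0 : a ≠ 0 := by
        rintro rfl
        rw [Zsqrtd.norm_zero] at hna'
        have : (n : ℤ) ≠ 0 := by exact_mod_cast hn.ne'
        exact this hna'.symm
      have hψa : ψ 𝔞.1 = h a := by rw [ha, hψ a]
      rw [← Finset.sum_filter, hψa]
      have h7 : ∀ z ∈ (Pool.Agent.H304R3.HK.M1.CG n).filter (fun z => F z 𝔞), h z = h a := by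
        intro z hz
        have := (Finset.mem_filter.mp hz).2
        refine h_assoc H (assoc_of_span ?_)
        rw [← ha]
        exact this
      rw [Finset.sum_congr rfl h7, Finset.sum_const, nsmul_eq_mul]
      have h8 := fib_card ha0 n hna'
      have h9 : ((Pool.Agent.H304R3.HK.M1.CG n).filter (fun z => F z 𝔞)).card = 4 := by
        rw [← h8]
        congr 1
        apply Finset.filter_congr
        intro z _
        show Ideal.span {e0 z} = 𝔞.1 ↔ _
        rw [ha]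
      rw [h9]
      norm_num
    rw [h4, Finset.mul_sum, Finset.sum_mul]
    refine Finset.sum_congr rfl fun 𝔞 _ => ?_
    rw [𝔞.2]
    ring

end Pool.Agent.A856.SE
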