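import Pool.Agent.A856.SE.LsH
import Pool.Agent.W354.PK.FinK

/-!
`hck_finite` and `ls_K`: the generalizations of `hc_finite` and `ls_H` of
`Pool/Agent/A856/SE/LsH.lean` from infinity type 1 to infinity type `k`.
-/

set_option autoImplicit false

open NumberField Complex

namespace Pool.Agent.A856.SE

open Pool.Agent.H304R3.HK (tc UH CS bb)
open Pool.Agent.W354.PK (HCk psik bK LK)

theorem q36_mkk {k : ℕ} {d : GaussianInt} {χ : GaussianInt →* ℂ} (h : HCk k d χ) :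
    ∃ ψ : MulChar (GaussianInt ⧸ Ideal.span {d}) ℂ, ∀ a, ψ (Ideal.Quotient.mk _ a) = χ a := by
  classical
  have hs : Function.Surjective (Ideal.Quotient.mk (Ideal.span {d})) := Ideal.Quotient.mk_surjective
  choose r hr using hs
  have key : ∀ q a, Ideal.Quotient.mk (Ideal.span {d}) a = q → χ (r q) = χ a := by
    intro q a hq
    apply h.per
    have h1 : Ideal.Quotient.mk (Ideal.span {d}) (r q) = Ideal.Quotient.mk (Ideal.span {d}) a := by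
      rw [hr, hq]
    exact Ideal.mem_span_singleton.mp (Ideal.Quotient.eq.mp h1)
  refine ⟨{ toFun := fun q => χ (r q), map_one' := ?_, map_mul' := ?_, map_nonunit' := ?_ }, ?_⟩
  · rw [key 1 1 (map_one _), map_one]
  · intro x y
    show χ (r (x * y)) = χ (r x) * χ (r y)
    rw [key (x * y) (r x * r y) (by rw [map_mul, hr, hr]), map_mul]
  · intro q hq
    show χ (r q) = 0
    by_contra hne
    obtain ⟨u, v, huv⟩ := (h.supp (r q)).mp hne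
    apply hq
    have h2 : Ideal.Quotient.mk (Ideal.span {d}) d = 0 :=
      Ideal.Quotient.eq_zero_iff_mem.mpr (Ideal.mem_span_singleton_self d)
    have h1 : Ideal.Quotient.mk (Ideal.span {d}) u * q = 1 := by
      have h3 := congrArg (Ideal.Quotient.mk (Ideal.span {d})) huv
      rw [map_add, map_mul, map_mul, h2, mul_zero, add_zero, hr, map_one] at h3
      exact h3
    exact IsUnit.of_mul_eq_one_right _ h1
  · intro a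
    exact key _ a rfl

theorem hck_finite {k : ℕ} {d : GaussianInt} (hd : d ≠ 0) :
    {χ : GaussianInt →* ℂ | HCk k d χ}.Finite ∧
    ({χ : GaussianInt →* ℂ | HCk k d χ}.ncard : ℝ) ≤ ‖tc d‖ ^ 2 := by
  classical
  obtain ⟨hfinQ, hcard⟩ := q36_card hd
  haveI := hfinQ
  have hex : ∀ χ : {χ : GaussianInt →* ℂ | HCk k d χ}, ∃ ψ : MulChar (GaussianInt ⧸ Ideal.span {d}) ℂ,
      ∀ a, ψ (Ideal.Quotient.mk _ a) = χ.1 a := fun χ => q36_mkk χ.2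
  choose F hF using hex
  have hinj : Function.Injective F := by
    intro χ χ' h
    apply Subtype.ext
    apply MonoidHom.ext
    intro a
    rw [← hF χ a, ← hF χ' a, h]
  have hfin : Finite {χ : GaussianInt →* ℂ | HCk k d χ} := Finite.of_injective F hinj
  refine ⟨hfin, ?_⟩
  rw [← hcard]
  have h1 : {χ : GaussianInt →* ℂ | HCk k d χ}.ncard ≤ Nat.card (MulChar (GaussianInt ⧸ Ideal.span {d}) ℂ) :=
    Nat.card_le_card_of_injective F hinj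
  have h2 : Nat.card (MulChar (GaussianInt ⧸ Ideal.span {d}) ℂ) = Nat.card (GaussianInt ⧸ Ideal.span {d})ˣ :=
    MulChar.card_eq_card_units_of_hasEnoughRootsOfUnity _ ℂ
  have h3 : Nat.card (GaussianInt ⧸ Ideal.span {d})ˣ ≤ Nat.card (GaussianInt ⧸ Ideal.span {d}) :=
    Nat.card_le_card_of_injective Units.val Units.val_injective
  exact_mod_cast h1.trans (h2.le.trans h3)

theorem ls_K {k : ℕ} {d : GaussianInt} (Y : Finset (GaussianInt →* ℂ)) (hY : ∀ χ ∈ Y, HCk k d χ)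
    (Ψ : (GaussianInt →* ℂ) → Ideal (𝓞 K0) →*₀ ℂ) (hΨ : ∀ χ ∈ Y, OnId (psik k χ) (Ψ χ))
    (T : Finset (Ideal (𝓞 K0))) (M : ℝ) (hT : ∀ 𝔫 ∈ T, 𝔫 ≠ ⊥ ∧ (Ideal.absNorm 𝔫 : ℝ) ≤ M)
    (hM : 4 * M < ‖tc d‖ ^ 2) (b : Ideal (𝓞 K0) → ℂ) :
    ∑ χ ∈ Y, ‖∑ 𝔫 ∈ T, Ψ χ 𝔫 * b 𝔫‖ ^ 2 ≤ ‖tc d‖ ^ 2 * ∑ 𝔫 ∈ T, ‖b 𝔫‖ ^ 2 := by
  classical
  rcases Y.eq_empty_or_nonempty with rfl | ⟨χ0, hχ0⟩
  · rw [Finset.sum_empty]
    exact mul_nonneg (sq_nonneg _) (Finset.sum_nonneg fun _ _ => sq_nonneg _)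
  have hd : d ≠ 0 := (hY χ0 hχ0).q0
  obtain ⟨hfinQ, hcard⟩ := q36_card hd
  haveI := hfinQ
  haveI : Fintype (GaussianInt ⧸ Ideal.span {d}) := Fintype.ofFinite _
  -- generators
  have hgen : ∀ 𝔫 : Ideal (𝓞 K0), ∃ a : GaussianInt, Ideal.span {e0 a} = 𝔫 := q36_gen
  choose g hg using hgen
  have hg0 : ∀ 𝔫 ∈ T, g 𝔫 ≠ 0 := by
    intro 𝔫 h h0
    apply (hT 𝔫 h).1
    rw [← hg 𝔫, h0, map_zero, Ideal.span_singleton_eq_bot]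
  have hgn : ∀ 𝔫 ∈ T, ‖tc (g 𝔫)‖ ^ 2 ≤ M := by
    intro 𝔫 h
    rw [q36_norm, ← norm_e0, hg 𝔫]
    exact (hT 𝔫 h).2
  have hinjT : ∀ 𝔫 ∈ T, ∀ 𝔪 ∈ T, (Ideal.Quotient.mk (Ideal.span {d}) (g 𝔫)) =
      Ideal.Quotient.mk (Ideal.span {d}) (g 𝔪) → 𝔫 = 𝔪 := by
    intro 𝔫 hn 𝔪 hm h
    have h1 : d ∣ g 𝔫 - g 𝔪 := Ideal.mem_span_singleton.mp (Ideal.Quotient.eq.mp h)
    have h2 : g 𝔫 = g 𝔪 := by
      by_contra hne
      have h3 := q36_dvd h1 (sub_ne_zero.mpr hne)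
      have h4 : tc (g 𝔫 - g 𝔪) = tc (g 𝔫) - tc (g 𝔪) := by
        simp only [tc, Zsqrtd.re_sub, Zsqrtd.im_sub]
        push_cast
        ring
      have h5 : ‖tc (g 𝔫) - tc (g 𝔪)‖ ≤ ‖tc (g 𝔫)‖ + ‖tc (g 𝔪)‖ := norm_sub_le _ _
      have h6 := hgn 𝔫 hn
      have h7 := hgn 𝔪 hm
      rw [h4] at h3
      nlinarith [norm_nonneg (tc (g 𝔫) - tc (g 𝔪)), norm_nonneg (tc (g 𝔫)), norm_nonneg (tc (g 𝔪)),
        sq_nonneg (‖tc (g 𝔫)‖ - ‖tc (g 𝔪)‖)]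
    rw [← hg 𝔫, ← hg 𝔪, h2]
  have hex : ∀ χ : GaussianInt →* ℂ, HCk k d χ → ∃ ψ : MulChar (GaussianInt ⧸ Ideal.span {d}) ℂ,
      ∀ a, ψ (Ideal.Quotient.mk _ a) = χ a := fun χ h => q36_mkk h
  choose! F hF using hex
  have hinj : Set.InjOn F (Y : Set (GaussianInt →* ℂ)) := by
    intro χ hχ χ' hχ' h
    apply MonoidHom.ext
    intro a
    rw [← hF χ (hY χ hχ) a, ← hF χ' (hY χ' hχ') a, h]
  set c : Ideal (𝓞 K0) → ℂ := fun 𝔫 => (tc (g 𝔫) / (‖tc (g 𝔫)‖ : ℂ)) ^ k * b 𝔫 with hc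
  set f : GaussianInt ⧸ Ideal.span {d} → ℂ := fun q =>
    ∑ 𝔫 ∈ T with Ideal.Quotient.mk (Ideal.span {d}) (g 𝔫) = q, c 𝔫 with hf
  have hsum : ∀ χ ∈ Y, ∑ 𝔫 ∈ T, Ψ χ 𝔫 * b 𝔫 = ∑ q, F χ q * f q := by
    intro χ hχ
    rw [← Finset.sum_fiberwise T (fun 𝔫 => Ideal.Quotient.mk (Ideal.span {d}) (g 𝔫))]
    refine Finset.sum_congr rfl fun q _ => ?_
    rw [hf, Finset.mul_sum]
    refine Finset.sum_congr rfl fun 𝔫 h𝔫 => ?_
    obtain ⟨h1, h2⟩ := Finset.mem_filter.mp h𝔫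
    rw [← h2, hF χ (hY χ hχ)]
    have h3 : Ψ χ 𝔫 = psik k χ (g 𝔫) := by
      conv_lhs => rw [← hg 𝔫]
      exact hΨ χ hχ (g 𝔫)
    rw [h3]
    have h4 : psik k χ (g 𝔫) = χ (g 𝔫) * (tc (g 𝔫) / (‖tc (g 𝔫)‖ : ℂ)) ^ k := by
      show (if g 𝔫 = 0 then 0 else _) = _
      rw [if_neg (hg0 𝔫 h1)]
    rw [h4, hc]
    ring
  have hc1 : ∀ 𝔫, ‖c 𝔫‖ ≤ ‖b 𝔫‖ := by
    intro 𝔫
    rw [hc]
    simp only [norm_mul, norm_pow, norm_div, Complex.norm_real, norm_norm]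
    refine mul_le_of_le_one_left (norm_nonneg _) (pow_le_one₀ (by positivity) (div_self_le_one _))
  have hf1 : ∀ q, ‖f q‖ ^ 2 ≤ ∑ 𝔫 ∈ T with Ideal.Quotient.mk (Ideal.span {d}) (g 𝔫) = q, ‖b 𝔫‖ ^ 2 := by
    intro q
    rw [hf]
    simp only
    rcases (T.filter fun 𝔫 => Ideal.Quotient.mk (Ideal.span {d}) (g 𝔫) = q).eq_empty_or_nonempty with h | ⟨𝔪, h⟩
    · rw [h]; simp
    · have h1 : (T.filter fun 𝔫 => Ideal.Quotient.mk (Ideal.span {d}) (g 𝔫) = q) = {𝔪} := by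
        refine Finset.eq_singleton_iff_unique_mem.mpr ⟨h, ?_⟩
        intro 𝔫 h𝔫
        obtain ⟨h2, h3⟩ := Finset.mem_filter.mp h𝔫
        obtain ⟨h4, h5⟩ := Finset.mem_filter.mp h
        exact hinjT 𝔫 h2 𝔪 h4 (h3.trans h5.symm)
      rw [h1, Finset.sum_singleton, Finset.sum_singleton]
      exact pow_le_pow_left₀ (norm_nonneg _) (hc1 𝔪) 2
  calc ∑ χ ∈ Y, ‖∑ 𝔫 ∈ T, Ψ χ 𝔫 * b 𝔫‖ ^ 2 = ∑ χ ∈ Y, ‖∑ q, F χ q * f q‖ ^ 2 :=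
        Finset.sum_congr rfl fun χ hχ => by rw [hsum χ hχ]
    _ = ∑ ψ ∈ Y.image F, ‖∑ q, ψ q * f q‖ ^ 2 := by
        rw [Finset.sum_image hinj]
    _ ≤ (Fintype.card (GaussianInt ⧸ Ideal.span {d}) : ℝ) * ∑ q, ‖f q‖ ^ 2 := q36_bessel f _
    _ ≤ ‖tc d‖ ^ 2 * ∑ 𝔫 ∈ T, ‖b 𝔫‖ ^ 2 := by
        rw [← hcard, Nat.card_eq_fintype_card]
        refine mul_le_mul_of_nonneg_left ?_ (Nat.cast_nonneg _)
        rw [← Finset.sum_fiberwise T (fun 𝔫 => Ideal.Quotient.mk (Ideal.span {d}) (g 𝔫))]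
        exact Finset.sum_le_sum fun q _ => hf1 q

end Pool.Agent.A856.SE
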