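import Pool.Agent.A856.SE.OnId
import Pool.Agent.A856.SE.GoodK
import Pool.Agent.A856.SE.LsK
import Pool.Agent.A856.SD.Core

/-!
# The density theorem for the Hecke characters of odd infinity type and exact conductor

Owner helper856 (Selberg's density theorem for elliptic curves over ray class fields).
-/

set_option autoImplicit false

open NumberField Complex

namespace Pool.Agent.A856.SE

open Pool.Agent.A856.SD (Good Fam Zst density_core)
open Pool.Agent.H304R3.HK (tc UH bb CS tc_ne_zero)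
open Pool.Agent.W354.PK (HCk psik LK bK uh_psik goodK)
open Pool.Agent.W354.PK.TK (psik_apply)
open Pool.Agent.Y773 (LI)

/-- the character as a function on the ideals -/
noncomputable def PsK (k : ℕ) (χ : GaussianInt →* ℂ) : Ideal (𝓞 K0) →*₀ ℂ :=
  open Classical in if h : UH (psik k χ) then (exists_onId h).choose else 1

lemma PsK_spec {k : ℕ} {χ : GaussianInt →* ℂ} (h : UH (psik k χ)) :
    OnId (psik k χ) (PsK k χ) ∧ ∀ 𝔞, ‖PsK k χ 𝔞‖ ≤ 1 := by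
  unfold PsK
  rw [dif_pos h]
  exact (exists_onId h).choose_spec

lemma PsK_inj {k : ℕ} {d d' : GaussianInt} {χ χ' : GaussianInt →* ℂ} (H : HCk k d χ) (H' : HCk k d' χ')
    (h : PsK k χ = PsK k χ') (hd : ¬ IsUnit d) (hd' : ¬ IsUnit d') : χ = χ' := by
  have h1 := (PsK_spec (uh_psik H)).1
  have h2 := (PsK_spec (uh_psik H')).1
  rw [h] at h1
  ext a
  by_cases ha : a = 0
  · have e1 : χ 0 = 0 := by
      by_contra h0
      exact hd (isCoprime_zero_left.mp ((H.supp 0).mp h0))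
    have e2 : χ' 0 = 0 := by
      by_contra h0
      exact hd' (isCoprime_zero_left.mp ((H'.supp 0).mp h0))
    rw [ha, e1, e2]
  · have h3 : psik k χ a = psik k χ' a := by rw [← h1 a, ← h2 a]
    rw [psik_apply, psik_apply, if_neg ha, if_neg ha] at h3
    have h4 : tc a ≠ 0 := tc_ne_zero ha
    have h5 : (tc a / (‖tc a‖ : ℂ)) ^ k ≠ 0 := by
      apply pow_ne_zero
      apply div_ne_zero h4
      simpa using h4
    exact mul_right_cancel₀ h5 h3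

lemma not_unitK {l : ℕ} {d : GaussianInt} {χ : GaussianInt →* ℂ} (H : HCk (2 * l + 1) d χ) :
    ¬ IsUnit d := by
  intro hu
  have h1 : χ (⟨0, 1⟩ : GaussianInt) = χ 1 := H.per _ _ (hu.dvd)
  rw [H.unit, map_one, pow_succ, pow_mul, neg_sq, I_sq] at h1
  have h2 := congrArg Complex.re h1
  rcases neg_one_pow_eq_or ℂ l with h | h
  · rw [h] at h2
    simp at h2
  · rw [h] at h2
    simp at h2

/-- **density for the exact conductor `d`** -/
theorem dens_exactK (l : ℕ) {c : ℝ} (hc0 : 0 < c) (hc1 : c < 1) : ∃ (C L₀ : ℝ) (B : ℕ), 0 < C ∧ 1 ≤ L₀ ∧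
    ∀ (d : GaussianInt) (L : ℝ), Real.exp L = ‖tc d‖ ^ 2 → L₀ ≤ L →
      ∀ Y : Finset (GaussianInt →* ℂ), (∀ χ ∈ Y, HCk (2 * l + 1) d χ) →
        (∀ χ ∈ Y, ∃ z, LK (2 * l + 1) χ z ≠ 0) ∧ ∀ δ t : ℝ, 0 ≤ δ →
          ∑ χ ∈ Y, ∑ᶠ ρ ∈ Zst (LK (2 * l + 1) χ) δ t (1 / L), (analyticOrderNatAt (LK (2 * l + 1) χ) ρ : ℝ) ≤
            C * (1 + |t|) ^ B * Real.exp (L - c * L * δ) := by
  classical
  obtain ⟨h, hh⟩ : ∃ h : ℝ, h = (1 - c) / 20 := ⟨_, rfl⟩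
  have hh0 : 0 < h := by rw [hh]; linarith
  have hh1 : 12 * h ≤ 1 - c := by rw [hh]; linarith
  obtain ⟨m, hm⟩ : ∃ m : ℕ, m = ⌈1 / h⌉₊ + 1 := ⟨_, rfl⟩
  have hm1 : 1 ≤ m := by omega
  have hmh : 1 ≤ h * ((m : ℝ) - 1) := by
    rw [hm]
    push_cast
    have h1 : 1 / h ≤ (⌈1 / h⌉₊ : ℝ) := Nat.le_ceil _
    have h2 : h * (1 / h) = 1 := by field_simp
    calc (1 : ℝ) = h * (1 / h) := h2.symm
      _ ≤ h * (⌈1 / h⌉₊ : ℝ) := mul_le_mul_of_nonneg_left h1 hh0.le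
      _ = _ := by ring
  obtain ⟨q, CX, hCX, hgood⟩ := good_K (2 * l + 1) (by omega) m
  obtain ⟨A0, -, hgH⟩ := goodK
  obtain ⟨C, L₀, hC, hL₀, hcore⟩ := density_core K0 hc0 hc1 hh0 hh1 hm1 hmh (q := q) (CX := CX)
    (A := 1) (B := 4) hCX le_rfl (by norm_num)
  refine ⟨C, L₀, 2 * q, hC, hL₀, ?_⟩
  intro d L hLd hL Y hY
  have hUH : ∀ χ ∈ Y, UH (psik (2 * l + 1) χ) := fun χ hχ => uh_psik (hY χ hχ)
  have hinj : Set.InjOn (PsK (2 * l + 1)) (Y : Set (GaussianInt →* ℂ)) := fun χ hχ χ' hχ' he =>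
    PsK_inj (hY χ hχ) (hY χ' hχ') he (not_unitK (hY χ hχ)) (not_unitK (hY χ' hχ'))
  obtain ⟨iv, hiv⟩ : ∃ iv : (Ideal (𝓞 K0) →*₀ ℂ) → (GaussianInt →* ℂ), ∀ χ ∈ Y, iv (PsK (2 * l + 1) χ) = χ := by
    refine ⟨fun ψ => if h : ∃ χ ∈ Y, PsK (2 * l + 1) χ = ψ then h.choose else 1, fun χ hχ => ?_⟩
    have h : ∃ χ' ∈ Y, PsK (2 * l + 1) χ' = PsK (2 * l + 1) χ := ⟨χ, hχ, rfl⟩
    show (if h : ∃ χ' ∈ Y, PsK (2 * l + 1) χ' = PsK (2 * l + 1) χ then h.choose else 1) = χ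
    rw [dif_pos h]
    exact hinj h.choose_spec.1 hχ h.choose_spec.2
  -- the analytic data
  have hser : ∀ χ ∈ Y, ∀ s : ℂ, 1 < s.re → LK (2 * l + 1) χ s = LI (PsK (2 * l + 1) χ) s := by
    intro χ hχ s hs
    have h1 := (hgH (2 * l + 1) d χ (by omega) (hY χ hχ)).2.1 s hs
    have h2 := onId_LI (hUH χ hχ) (PsK_spec (hUH χ hχ)).1 hs
    exact h1.unique h2
  have hdat : ∀ χ ∈ Y, ∃ X : ℂ → ℂ, Good K0 m q CX (Real.exp L) (PsK (2 * l + 1) χ) (LK (2 * l + 1) χ) X := by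
    intro χ hχ
    rw [hLd]
    exact hgood d χ (hY χ hχ) (PsK (2 * l + 1) χ) (PsK_spec (hUH χ hχ)).2 (hser χ hχ)
  choose! X hX using hdat
  have hfam : Fam K0 1 4 L (Y.image (PsK (2 * l + 1))) := by
    constructor
    · rw [one_mul, hLd]
      rcases Y.eq_empty_or_nonempty with hE | ⟨χ₀, hχ₀⟩
      · rw [hE]
        simp only [Finset.image_empty, Finset.card_empty, Nat.cast_zero]
        positivity
      have hd0 : d ≠ 0 := (hY χ₀ hχ₀).q0
      obtain ⟨h1, h2⟩ := hck_finite (k := 2 * l + 1) hd0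
      refine le_trans ?_ h2
      have h3 : (Y.image (PsK (2 * l + 1))).card ≤ Y.card := Finset.card_image_le
      have h4 : Y.card ≤ {χ : GaussianInt →* ℂ | HCk (2 * l + 1) d χ}.ncard := by
        rw [Set.ncard_eq_toFinset_card _ h1]
        exact Finset.card_le_card fun χ hχ => h1.mem_toFinset.mpr (hY χ hχ)
      exact_mod_cast h3.trans h4
    · intro T M hT hM b
      rw [Finset.sum_image hinj, one_mul, hLd]
      rw [hLd] at hM
      exact ls_K Y hY (PsK (2 * l + 1)) (fun χ hχ => (PsK_spec (hUH χ hχ)).1) T M hT hM b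
  obtain ⟨h1, h2⟩ := hcore L hL (Y.image (PsK (2 * l + 1))) hfam (fun ψ => LK (2 * l + 1) (iv ψ)) (fun ψ => X (iv ψ)) (by
    intro ψ hψ
    obtain ⟨χ, hχ, rfl⟩ := Finset.mem_image.mp hψ
    show Good K0 m q CX (Real.exp L) (PsK (2 * l + 1) χ) (LK (2 * l + 1) (iv (PsK (2 * l + 1) χ))) (X (iv (PsK (2 * l + 1) χ)))
    rw [hiv χ hχ]
    exact hX χ hχ)
  refine ⟨fun χ hχ => ?_, fun δ t hδ => ?_⟩
  · have := h1 (PsK (2 * l + 1) χ) (Finset.mem_image_of_mem _ hχ)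
    rwa [hiv χ hχ] at this
  · have h3 := h2 δ t hδ
    rw [Finset.sum_image hinj] at h3
    refine le_trans (le_of_eq ?_) h3
    refine Finset.sum_congr rfl fun χ hχ => ?_
    rw [hiv χ hχ]

end Pool.Agent.A856.SE
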